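import Pool.Agent.H72R3.II.Stmts2

set_option autoImplicit false

namespace Pool.Agent.H72R3.II

theorem BC_occ_of {n : ℕ} (i j : Fin n) : Occ i (FreeSemigroup.of j) ↔ i = j := by
  unfold Occ
  simp [FreeSemigroup.of]

theorem BC_occ_mul {n : ℕ} (i j : Fin n) (w : FreeSemigroup (Fin n)) :
    Occ i (FreeSemigroup.of j * w) ↔ i = j ∨ Occ i w := by
  unfold Occ
  constructor
  · rintro (h | h)
    · exact Or.inl h
    · right
      have h1 : i ∈ w.head :: w.tail := h
      exact List.mem_cons.mp h1
  · rintro (h | h)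
    · exact Or.inl h
    · right
      show i ∈ w.head :: w.tail
      exact List.mem_cons.mpr h

theorem BC_A {S : Type} [Semigroup S] (hb : ∀ x : S, x * x = x) {n : ℕ} (i : Fin n) (x : S)
    (f : Fin n → S) (hf : ∀ j, i ≠ j → f j = x) (w : FreeSemigroup (Fin n)) :
    ¬ Occ i w → FreeSemigroup.lift f w = x := by
  induction w using FreeSemigroup.recOnMul with
  | ih1 j =>
    intro h
    rw [BC_occ_of] at h
    rw [FreeSemigroup.lift_of]
    exact hf j h
  | ih2 j w _ ih =>
    intro h
    rw [BC_occ_mul] at h
    push Not at h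
    rw [map_mul, FreeSemigroup.lift_of, hf j h.1, ih h.2, hb]

theorem BC_B {S : Type} [Semigroup S] {n : ℕ} (i : Fin n) (x y : S)
    (f : Fin n → S) (hf : f i = y) (w : FreeSemigroup (Fin n)) :
    Occ i w → ∀ a : S, ∃ u v : S, a * FreeSemigroup.lift f w * x = u * y * v := by
  induction w using FreeSemigroup.recOnMul with
  | ih1 j =>
    intro h a
    rw [BC_occ_of] at h
    subst h
    rw [FreeSemigroup.lift_of, hf]
    exact ⟨a, x, rfl⟩
  | ih2 j w _ ih =>
    intro h a
    rw [BC_occ_mul] at h
    rw [map_mul, FreeSemigroup.lift_of]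
    rcases h with rfl | h
    · rw [hf]
      exact ⟨a, FreeSemigroup.lift f w * x, by simp only [mul_assoc]⟩
    · obtain ⟨u, v, he⟩ := ih h (a * f j)
      exact ⟨u, v, by rw [← he]; simp only [mul_assoc]⟩

theorem BC_ok (_h : S_BW) : S_BC := by
  classical
  intro E hB hN n w w' hw i hi
  by_contra hi'
  obtain ⟨S, inst, hS, x, y, hxy⟩ := hN
  have hb : ∀ x : S, x * x = x := hB S hS
  obtain ⟨T, hT⟩ := F_lift hS n (fun j => if i = j then y else x)
  have hTv : ∀ w, T (val E n w) = FreeSemigroup.lift (fun j => if i = j then y else x) w := by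
    intro w
    rw [val_eq_lift, map_lift]
    congr 2
    funext a
    exact hT a
  have h1 : FreeSemigroup.lift (fun j => if i = j then y else x) w' = x :=
    BC_A hb i x _ (fun j hj => if_neg hj) w' hi'
  have h2 : FreeSemigroup.lift (fun j => if i = j then y else x) w = x := by
    rw [← hTv, hw, hTv, h1]
  obtain ⟨u, v, he⟩ := BC_B i x y (fun j => if i = j then y else x) (if_pos rfl) w hi x
  rw [h2, hb, hb] at he
  apply hxy
  have ha : x * (y * v) = x := by
    calc x * (y * v) = u * y * v * (y * v) := by rw [← he]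
      _ = u * ((y * v) * (y * v)) := by simp only [mul_assoc]
      _ = u * (y * v) := by rw [hb]
      _ = u * y * v := by simp only [mul_assoc]
      _ = x := he.symm
  have hbx : (u * y) * x = x := by
    calc (u * y) * x = (u * y) * (u * y * v) := by rw [← he]
      _ = ((u * y) * (u * y)) * v := by simp only [mul_assoc]
      _ = (u * y) * v := by rw [hb]
      _ = x := he.symm
  obtain ⟨c, hc⟩ : ∃ c, c = (y * v) * x * (u * y) := ⟨_, rfl⟩
  have hc1 : x * c * x = x := by
    calc x * c * x = (x * (y * v)) * x * ((u * y) * x) := by rw [hc]; simp only [mul_assoc]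
      _ = x * x * x := by rw [ha, hbx]
      _ = x := by rw [hb, hb]
  have hc2 : y * c = c := by
    calc y * c = (y * y) * v * x * (u * y) := by rw [hc]; simp only [mul_assoc]
      _ = c := by rw [hb, hc]
  have hx1 : x = (x * y) * (c * x) := by
    calc x = x * c * x := hc1.symm
      _ = x * (y * c) * x := by rw [hc2]
      _ = _ := by simp only [mul_assoc]
  calc x * y * x = (x * y) * ((x * y) * (c * x)) := by rw [← hx1]
    _ = ((x * y) * (x * y)) * (c * x) := by simp only [mul_assoc]
    _ = (x * y) * (c * x) := by rw [hb]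
    _ = x := hx1.symm

end Pool.Agent.H72R3.II
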