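import Pool.Agent.H72R3.II.Stmts

set_option autoImplicit false

namespace Pool.Agent.H72R3.II

theorem NIL_ok (hNA : S_NA) (hNE : S_NE) (hNF : S_NF) (hN0 : S_N0) : S_NIL := by
  intro E n L hn z hz hiso
  by_cases h : ∃ w : FreeSemigroup (Fin (n + 1)), val E (n + 1) w ≠ z
  · obtain ⟨δ, hδ, hd⟩ := hNA E n L hn z hz h (hiso z)
    exact hNF E n δ hn hδ z hd (hNE E n δ hn hδ z hd hiso)
  · push Not at h
    exact Or.inl (hN0 E n hn z h)

theorem InclEquiv.step (hS : S_SUB) {E : Set (FreeSemigroup ℕ × FreeSemigroup ℕ)} {m n : ℕ}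
    (hm : 1 ≤ m) (hmn : m < n) (h : InclEquiv (F E m) (F E n)) :
    InclEquiv (F E m) (F E (m + 1)) := by
  intro u W hW
  constructor
  · intro h1
    exact hS E (m + 1) n (by omega) (by omega) u W ((h u W hW).1 h1)
  · intro h1
    exact hS E m (m + 1) hm (by omega) u W h1

theorem InclEquiv.symm' {S S' : Type} [Semigroup S] [Semigroup S'] (h : InclEquiv S S') :
    InclEquiv S' S := fun u W hW => (h u W hW).symm

theorem not_separated (hC : S_CRIT) {E : Set (FreeSemigroup ℕ × FreeSemigroup ℕ)} {m : ℕ}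
    (hm : 1 ≤ m) (h : Iso E (m + 1) m) : ¬ Separated E := by
  intro hs
  exact hs m (m + 1) hm (by omega) (by omega) ((hC E m (m + 1) hm (by omega)).2 h)

theorem exists_iso (hS : S_SUB) (hC : S_CRIT) {E : Set (FreeSemigroup ℕ × FreeSemigroup ℕ)}
    (h : ¬ Separated E) : ∃ m : ℕ, 1 ≤ m ∧ Iso E (m + 1) m := by
  unfold Separated at h
  push Not at h
  obtain ⟨m, n, hm, hn, hne, he⟩ := h
  rcases lt_or_gt_of_ne hne with hlt | hlt
  · exact ⟨m, hm, (hC E m (m + 1) hm (by omega)).1 (he.step hS hm hlt)⟩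
  · exact ⟨n, hn, (hC E n (n + 1) hn (by omega)).1 (he.symm'.step hS hn hlt)⟩

theorem FIN_ok (hS : S_SUB) (hC : S_CRIT) (hNIL : S_NIL) (hKEY : S_KEY) (hPA : S_PA) (hPB : S_PB)
    (hPC : S_PC) (hPER : S_PERIOD) (hCOM : S_COM) (hEXA : S_EXA) (hEXB : S_EXB) : S_FIN := by
  have hexc : ∀ E : Set (FreeSemigroup ℕ × FreeSemigroup ℕ), Exceptional E → ¬ Separated E := by
    intro E h
    rcases h with h | ⟨c, h1, h2⟩
    · exact not_separated hC le_rfl (hEXA E h)
    · exact not_separated hC (by omega) (hEXB E c h1 h2)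
  refine ⟨fun E m n hm hmn => hC E m n hm hmn, ?_, ?_⟩
  · intro E hcomm
    constructor
    · intro hs
      refine ⟨?_, fun h => hexc E h hs⟩
      by_contra hna
      exact not_separated hC le_rfl (hCOM E hcomm hna) hs
    · rintro ⟨hna, hne⟩
      by_contra hs
      obtain ⟨m, hm, hiso⟩ := exists_iso hS hC hs
      obtain ⟨N, hN, hpow⟩ := hPER E hcomm hna
      obtain ⟨v, hv⟩ := hKEY E m N hcomm hm hN hpow hiso
      obtain ⟨z, hz⟩ := hPC E m N hcomm hN (hPA E m N v hm hN hpow hv) (hPB E m N v hm hN hpow hv)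
      exact hne (hNIL E m _ hm z hz hiso)
  · intro E c hc
    constructor
    · intro hs h
      exact hexc E h hs
    · intro hne
      by_contra hs
      obtain ⟨m, hm, hiso⟩ := exists_iso hS hC hs
      refine hne (hNIL E m c hm (val E (m + 1) ((FreeSemigroup.of 0) * ⟨0, List.replicate c 0⟩)) ?_ hiso)
      intro w hw
      have hval : ∀ w : FreeSemigroup (Fin (m + 1)), val E (m + 1) w =
          FreeSemigroup.lift id (FreeSemigroup.map (gen E (m + 1)) w) := by
        intro w
        rw [val_eq_lift]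
        have : FreeSemigroup.lift (gen E (m + 1)) =
            (FreeSemigroup.lift id).comp (FreeSemigroup.map (gen E (m + 1))) := by
          apply hom_ext
          intro a
          simp
        rw [this]
        rfl
      rw [hval, hval]
      apply hc (F E (m + 1)) (F_models (m + 1))
      · simpa using hw
      · rw [FreeSemigroup.length_map, FreeSemigroup.length_mul]
        simp only [FreeSemigroup.length, List.length_replicate]
        omega

end Pool.Agent.H72R3.II
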