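import Pool.Agent.H72R3.II.Stmts2
import Pool.Agent.H72R3.II.FIN

set_option autoImplicit false

namespace Pool.Agent.H72R3.II

theorem BFIN_ok (hS : S_SUB) (hC : S_CRIT) (hBP : S_BP) (hBR : S_BR) : S_BFIN := by
  intro E hE
  constructor
  · intro hs
    by_contra hn
    exact not_separated hC (by norm_num) (hBR E hE hn) hs
  · intro hn
    by_contra hs
    obtain ⟨m, hm, hiso⟩ := exists_iso hS hC hs
    obtain ⟨p, -, hp⟩ := hBP E hE hn m hm
    obtain ⟨T, hT⟩ := hiso (val E (m + 1) p)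
    obtain ⟨h, h1, h2⟩ := hp T
    exact h1 (hT h h2)

end Pool.Agent.H72R3.II
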