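import Pool.Agent.H72R3.II.Stmts2

/-! BP: an element that is not isolated -/

set_option autoImplicit false

namespace Pool.Agent.H72R3.II

theorem BP_occ_mul {n : ℕ} (i : Fin n) (a b : FreeSemigroup (Fin n)) :
    Occ i (a * b) ↔ Occ i a ∨ Occ i b := by
  unfold Occ
  rw [FreeSemigroup.head_mul, FreeSemigroup.tail_mul]
  simp only [List.mem_append, List.mem_cons]
  tauto

theorem BP_occ_of {n : ℕ} (i j : Fin n) : Occ i (FreeSemigroup.of j) ↔ i = j := by
  unfold Occ
  constructor
  · rintro (h | h)
    · exact h
    · exact absurd h (by simp [FreeSemigroup.of])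
  · intro h
    exact Or.inl h

theorem BP_occ_lift {n m : ℕ} (u : Fin n → FreeSemigroup (Fin m)) (w : FreeSemigroup (Fin n))
    (a : Fin m) : Occ a (FreeSemigroup.lift u w) ↔ ∃ i, Occ i w ∧ Occ a (u i) := by
  induction w using FreeSemigroup.recOnMul with
  | ih1 x =>
    rw [FreeSemigroup.lift_of]
    constructor
    · intro h
      exact ⟨x, (BP_occ_of x x).2 rfl, h⟩
    · rintro ⟨i, hi, h⟩
      rw [BP_occ_of] at hi
      rwa [hi] at h
  | ih2 x y hx hy =>
    rw [map_mul, BP_occ_mul, hx, hy]
    constructor
    · rintro (⟨i, h1, h2⟩ | ⟨i, h1, h2⟩)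
      · exact ⟨i, (BP_occ_mul _ _ _).2 (Or.inl h1), h2⟩
      · exact ⟨i, (BP_occ_mul _ _ _).2 (Or.inr h1), h2⟩
    · rintro ⟨i, h1, h2⟩
      rcases (BP_occ_mul _ _ _).1 h1 with h1 | h1
      · exact Or.inl ⟨i, h1, h2⟩
      · exact Or.inr ⟨i, h1, h2⟩

theorem BP_congr {n : ℕ} {S : Type} [Semigroup S] (f g : Fin n → S) (w : FreeSemigroup (Fin n))
    (h : ∀ i, Occ i w → f i = g i) : FreeSemigroup.lift f w = FreeSemigroup.lift g w := by
  induction w using FreeSemigroup.recOnMul with
  | ih1 x =>
    rw [FreeSemigroup.lift_of, FreeSemigroup.lift_of]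
    exact h x ((BP_occ_of x x).2 rfl)
  | ih2 x y hx hy =>
    rw [map_mul, map_mul, hx (fun i hi => h i ((BP_occ_mul _ _ _).2 (Or.inl hi))),
      hy (fun i hi => h i ((BP_occ_mul _ _ _).2 (Or.inr hi)))]

theorem BP_T {E : Set (FreeSemigroup ℕ × FreeSemigroup ℕ)} {n m : ℕ} (T : F E n →ₙ* F E m)
    (u : Fin n → FreeSemigroup (Fin m)) (hu : ∀ i, val E m (u i) = T (gen E n i))
    (w : FreeSemigroup (Fin n)) : T (val E n w) = val E m (FreeSemigroup.lift u w) := by
  rw [val_eq_lift, map_lift, map_lift]
  exact BP_congr _ _ _ fun i _ => (hu i).symm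

theorem BP_base {E : Set (FreeSemigroup ℕ × FreeSemigroup ℕ)} (hB : BandV E) (x : F E 1) :
    x = gen E 1 0 := by
  obtain ⟨w, rfl⟩ := val_surj (E := E) 1 x
  rw [val_eq_lift]
  induction w using FreeSemigroup.recOnMul with
  | ih1 y =>
    rw [FreeSemigroup.lift_of, Subsingleton.elim y 0]
  | ih2 y z hy hz =>
    rw [map_mul, hy, hz]
    exact hB (F E 1) (F_models 1) _

theorem BP_ok (hW : S_BW) (hC : S_BC) : S_BP := by
  intro E hB hR n hn
  induction n, hn using Nat.le_induction with
  | base =>
    refine ⟨FreeSemigroup.of 0 * FreeSemigroup.of 1, ?_, ?_⟩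
    · intro i
      rw [BP_occ_mul, BP_occ_of, BP_occ_of]
      fin_cases i
      · exact Or.inl rfl
      · exact Or.inr rfl
    · intro T
      refine ⟨val E 2 (FreeSemigroup.of 0), ?_, ?_⟩
      · intro h
        have h1 := hC E hB hR 2 _ _ h.symm 1
          ((BP_occ_mul _ _ _).2 (Or.inr ((BP_occ_of _ _).2 rfl)))
        rw [BP_occ_of] at h1
        exact absurd h1 (by decide)
      · rw [BP_base hB (T (val E 2 (FreeSemigroup.of 0))), ← BP_base hB (T _)]
  | succ n hn ih =>
    obtain ⟨p, hp, hT⟩ := ih
    have hBm : ∀ k, ∀ x : F E k, x * x = x := fun k => hB (F E k) (F_models k)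
    set cs : FreeSemigroup (Fin (n + 1)) → FreeSemigroup (Fin (n + 2)) :=
      fun w => FreeSemigroup.lift (fun i : Fin (n + 1) => FreeSemigroup.of i.castSucc) w with hcs
    have hocc_cs : ∀ (w : FreeSemigroup (Fin (n + 1))) (i : Fin (n + 1)),
        Occ i.castSucc (cs w) ↔ Occ i w := by
      intro w i
      rw [hcs, BP_occ_lift]
      constructor
      · rintro ⟨j, h1, h2⟩
        rw [BP_occ_of] at h2
        rwa [Fin.castSucc_injective _ h2]
      · intro h
        exact ⟨i, h, (BP_occ_of _ _).2 rfl⟩
    have hocc_last : ∀ w : FreeSemigroup (Fin (n + 1)), ¬ Occ (Fin.last (n + 1)) (cs w) := by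
      intro w h
      rw [hcs, BP_occ_lift] at h
      obtain ⟨j, _, h2⟩ := h
      rw [BP_occ_of] at h2
      exact absurd h2.symm (Fin.castSucc_lt_last j).ne
    refine ⟨cs p * FreeSemigroup.of (Fin.last (n + 1)) * cs p, ?_, ?_⟩
    · intro i
      rw [BP_occ_mul, BP_occ_mul, BP_occ_of]
      refine Fin.lastCases ?_ (fun j => ?_) i
      · exact Or.inl (Or.inr rfl)
      · exact Or.inr ((hocc_cs p j).2 (hp j))
    · intro T
      have hs := val_surj (E := E) (n + 1)
      choose u hu using fun i : Fin (n + 2) => hs (T (gen E (n + 2) i))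
      have hgl : val E (n + 2) (FreeSemigroup.of (Fin.last (n + 1))) =
        gen E (n + 2) (Fin.last (n + 1)) := rfl
      by_cases hc : ∀ a, Occ a (u (Fin.last (n + 1))) →
          ∃ i : Fin (n + 1), Occ a (u i.castSucc)
      · refine ⟨val E (n + 2) (cs p), ?_, ?_⟩
        · intro h
          have h1 := hC E hB hR (n + 2) _ _ h.symm (Fin.last (n + 1))
            ((BP_occ_mul _ _ _).2 (Or.inl ((BP_occ_mul _ _ _).2 (Or.inr
              ((BP_occ_of _ _).2 rfl)))))
          exact hocc_last p h1
        · rw [map_mul, map_mul, map_mul, map_mul, hgl, BP_T T u hu, ← hu (Fin.last (n + 1)),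
            val_eq_lift, val_eq_lift]
          refine (hW (F E (n + 1)) (hBm (n + 1)) (n + 1) (gen E (n + 1)) _ _ ?_).symm
          intro a ha
          obtain ⟨i, hi⟩ := hc a ha
          rw [BP_occ_lift]
          exact ⟨i.castSucc, (hocc_cs p i).2 (hp i), hi⟩
      · push Not at hc
        obtain ⟨a, _, ha⟩ := hc
        obtain ⟨π, hπ⟩ := F_lift (F_models (E := E) n) (n + 1)
          (Fin.insertNth (α := fun _ => F E n) a (gen E n ⟨0, hn⟩) (gen E n))
        obtain ⟨s, hs'⟩ := F_lift (F_models (E := E) (n + 1)) n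
          (fun k => gen E (n + 1) (a.succAbove k))
        obtain ⟨emb, hemb⟩ := F_lift (F_models (E := E) (n + 2)) (n + 1)
          (fun k : Fin (n + 1) => gen E (n + 2) k.castSucc)
        obtain ⟨ρ, hρ⟩ := F_lift (F_models (E := E) (n + 1)) (n + 2)
          (Fin.snoc (α := fun _ => F E (n + 1)) (gen E (n + 1)) (gen E (n + 1) 0))
        have hsp : ∀ w : FreeSemigroup (Fin (n + 1)), ¬ Occ a w →
            s (π (val E (n + 1) w)) = val E (n + 1) w := by
          intro w hw
          rw [val_eq_lift, map_lift, map_lift]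
          refine BP_congr _ _ _ fun i hi => ?_
          have hia : i ≠ a := fun h => hw (h ▸ hi)
          obtain ⟨k, rfl⟩ := Fin.exists_succAbove_eq hia
          rw [hπ, Fin.insertNth_apply_succAbove, hs']
        have hembv : ∀ w : FreeSemigroup (Fin (n + 1)),
            emb (val E (n + 1) w) = val E (n + 2) (cs w) := by
          intro w
          exact BP_T emb _ (fun i => (hemb i).symm) w
        have hTe : ∀ w : FreeSemigroup (Fin (n + 1)),
            s (π (T (emb (val E (n + 1) w)))) = T (emb (val E (n + 1) w)) := by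
          intro w
          rw [hembv, BP_T T u hu]
          apply hsp
          rw [BP_occ_lift]
          rintro ⟨j, h1, h2⟩
          revert h1 h2
          refine Fin.lastCases ?_ (fun i => ?_) j
          · intro h1 _
            exact hocc_last w h1
          · intro _ h2
            exact ha i h2
        obtain ⟨h0, h1, h2⟩ := hT ((π.comp T).comp emb)
        obtain ⟨q0, rfl⟩ := val_surj (E := E) (n + 1) h0
        have h3 : T (emb (val E (n + 1) q0)) = T (emb (val E (n + 1) p)) := by
          rw [← hTe q0, ← hTe p]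
          exact congrArg s h2
        refine ⟨val E (n + 2) (cs q0 * FreeSemigroup.of (Fin.last (n + 1)) * cs q0), ?_, ?_⟩
        · intro heq
          apply h1
          have hq : ∀ i, Occ i q0 := by
            intro i
            have h4 := hC E hB hR (n + 2) _ _ heq.symm i.castSucc
              ((BP_occ_mul _ _ _).2 (Or.inr ((hocc_cs p i).2 (hp i))))
            rw [BP_occ_mul, BP_occ_mul, BP_occ_of, hocc_cs] at h4
            rcases h4 with (h4 | h4) | h4
            · exact h4
            · exact absurd h4 (Fin.castSucc_lt_last i).ne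
            · exact h4
          have hρe : ∀ x : F E (n + 1), ρ (emb x) = x := by
            intro x
            have : ρ.comp emb = MulHom.id (F E (n + 1)) := by
              apply F_ext
              intro i
              show ρ (emb (gen E (n + 1) i)) = gen E (n + 1) i
              rw [hemb, hρ, Fin.snoc_castSucc]
            exact DFunLike.congr_fun this x
          have hfix : ∀ w : FreeSemigroup (Fin (n + 1)), (∀ i, Occ i w) →
              ρ (val E (n + 2) (cs w * FreeSemigroup.of (Fin.last (n + 1)) * cs w)) =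
                val E (n + 1) w := by
            intro w hw
            rw [map_mul, map_mul, map_mul, map_mul, hgl, ← hembv, hρe, hρ, Fin.snoc_last,
              val_eq_lift]
            have h5 := hW (F E (n + 1)) (hBm (n + 1)) (n + 1) (gen E (n + 1)) w
              (FreeSemigroup.of 0) (fun i _ => hw i)
            rw [FreeSemigroup.lift_of] at h5
            exact h5
          rw [← hfix q0 hq, ← hfix p hp, heq]
        · rw [map_mul, map_mul, map_mul, map_mul, map_mul, map_mul, map_mul, map_mul, ← hembv,
            ← hembv, h3]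

end Pool.Agent.H72R3.II
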