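import Pool.Agent.H72R3.II.Stmts2

/-!
# Rectangular bands (task BR)
-/

set_option autoImplicit false

namespace Pool.Agent.H72R3.II

theorem BR_c1 : ∀ i j k : Fin 4, k ≠ i →
    (if k = i then (0 : Fin 3) else if k = j then 1 else 2) ≠
      (if i = i then (0 : Fin 3) else if i = j then 1 else 2) := by decide

theorem BR_c2 : ∀ i j l : Fin 4, l ≠ j →
    (if l = i then (0 : Fin 3) else if l = j then 1 else 2) ≠
      (if j = i then (0 : Fin 3) else if j = j then 1 else 2) := by decide

theorem BR_ok : S_BR := by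
  intro E hB hN
  have hr : ∀ (S : Type) [Semigroup S], Models S E → ∀ x y : S, x * y * x = x := by
    intro S _ hS x y
    by_contra h
    exact hN ⟨S, inferInstance, hS, x, y, h⟩
  have rect : ∀ (S : Type) [Semigroup S], Models S E → ∀ x y z : S, x * y * z = x * z := by
    intro S _ hS x y z
    calc x * y * z = x * y * (z * x * z) := by rw [hr S hS z x]
      _ = (x * (y * z) * x) * z := by simp only [mul_assoc]
      _ = x * z := by rw [hr S hS x (y * z)]
  -- elements of the free semigroups
  have hel : ∀ (n : ℕ) (g : F E n), ∃ i j : Fin n, g = gen E n i * gen E n j := by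
    intro n g
    obtain ⟨w, rfl⟩ := val_surj n g
    induction w using FreeSemigroup.recOnMul with
    | ih1 a => exact ⟨a, a, (hB (F E n) (F_models n) (gen E n a)).symm⟩
    | ih2 a w h1 h2 =>
      obtain ⟨i, j, h1⟩ := h1
      obtain ⟨k, l, h2⟩ := h2
      refine ⟨i, l, ?_⟩
      rw [map_mul, h1, h2]
      calc gen E n i * gen E n j * (gen E n k * gen E n l)
          = gen E n i * (gen E n j * gen E n k) * gen E n l := by simp only [mul_assoc]
        _ = gen E n i * gen E n l := rect (F E n) (F_models n) _ _ _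
  -- right zero
  have hR : ∀ (s s' : Fin 3) (X Y : F E 3), s ≠ s' → gen E 3 s * X = gen E 3 s' * Y →
      ∀ (S : Type) [Semigroup S], Models S E → ∀ x z : S, x * z = z := by
    intro s s' X Y hs h S _ hS x z
    have h1 : gen E 3 s * gen E 3 s' = gen E 3 s' * gen E 3 s' := by
      rw [← rect (F E 3) (F_models 3) (gen E 3 s) X, h, rect (F E 3) (F_models 3)]
    obtain ⟨T, hT⟩ := F_lift hS 3 (fun t => if t = s then x else z)
    have h2 := congrArg T h1
    rw [map_mul, map_mul, hT, hT, if_pos rfl, if_neg hs.symm] at h2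
    rw [h2, hB S hS z]
  -- left zero
  have hL : ∀ (t t' : Fin 3) (X Y : F E 3), t ≠ t' → X * gen E 3 t = Y * gen E 3 t' →
      ∀ (S : Type) [Semigroup S], Models S E → ∀ x z : S, x * z = x := by
    intro t t' X Y ht h S _ hS x z
    have h1 : gen E 3 t * gen E 3 t = gen E 3 t * gen E 3 t' := by
      rw [← rect (F E 3) (F_models 3) (gen E 3 t) X, mul_assoc, h, ← mul_assoc,
        rect (F E 3) (F_models 3)]
    obtain ⟨T, hT⟩ := F_lift hS 3 (fun u => if u = t then x else z)
    have h2 := congrArg T h1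
    rw [map_mul, map_mul, hT, hT, if_pos rfl, if_neg ht.symm] at h2
    rw [← h2, hB S hS x]
  intro g
  obtain ⟨i, j, rfl⟩ := hel 4 g
  obtain ⟨T, hT⟩ := F_lift (F_models (E := E) 3) 4
    (fun s => gen E 3 (if s = i then (0 : Fin 3) else if s = j then 1 else 2))
  refine ⟨T, fun h hh => ?_⟩
  obtain ⟨k, l, rfl⟩ := hel 4 h
  rw [map_mul, map_mul, hT, hT, hT, hT] at hh
  have hM := F_models (E := E) 4
  by_cases hk : k = i
  · by_cases hl : l = j
    · rw [hk, hl]
    · have hLz := hL _ _ _ _ (BR_c2 i j l hl) hh (F E 4) hM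
      rw [hLz, hLz, hk]
  · have hRz := hR _ _ _ _ (BR_c1 i j k hk) hh (F E 4) hM
    by_cases hl : l = j
    · rw [hRz, hRz, hl]
    · have hLz := hL _ _ _ _ (BR_c2 i j l hl) hh (F E 4) hM
      rw [← hLz (gen E 4 k * gen E 4 l) (gen E 4 i * gen E 4 j)]
      exact hRz _ _

end Pool.Agent.H72R3.II
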