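import Pool.Agent.H72R3.II.Stmts2

set_option autoImplicit false

namespace Pool.Agent.H72R3.II

/-- if `x = x * a` and `x = b * x` where `a` starts and `b` ends with `y`, then `x * y * x = x`. -/
theorem BW_sub {S : Type} [Semigroup S] (hS : ∀ x : S, x * x = x) (x y c : S)
    (h1 : x * (y * c) * x = x) : x * y * x = x := by
  have h2 : (x * y) * (c * x) = x := by
    have : (x * y) * (c * x) = x * (y * c) * x := by simp only [mul_assoc]
    rw [this, h1]
  calc x * y * x = (x * y) * ((x * y) * (c * x)) := by rw [h2]
    _ = ((x * y) * (x * y)) * (c * x) := by simp only [mul_assoc]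
    _ = (x * y) * (c * x) := by rw [hS]
    _ = x := h2

theorem BW_sub' {S : Type} [Semigroup S] (hS : ∀ x : S, x * x = x) (x y c : S)
    (h1 : x * (c * y) * x = x) : x * y * x = x := by
  have h2 : (x * c) * (y * x) = x := by
    have : (x * c) * (y * x) = x * (c * y) * x := by simp only [mul_assoc]
    rw [this, h1]
  calc x * y * x = ((x * c) * (y * x)) * y * x := by rw [h2]
    _ = (x * c) * ((y * x) * (y * x)) := by simp only [mul_assoc]
    _ = (x * c) * (y * x) := by rw [hS]
    _ = x := h2

/-- factors of `x` are absorbed -/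
def BW_abs {S : Type} [Semigroup S] (x y : S) : Prop := x * y * x = x

theorem BW_self {S : Type} [Semigroup S] (hS : ∀ x : S, x * x = x) (x : S) : BW_abs x x := by
  unfold BW_abs
  rw [hS, hS]

/-- `y` absorbed by `u`, and `u` is a left factor of `x` -/
theorem BW_left {S : Type} [Semigroup S] (hS : ∀ x : S, x * x = x) (u v y : S)
    (h : BW_abs u y) : BW_abs (u * v) y := by
  unfold BW_abs at *
  have e : (u * v) * (y * (u * v)) = u * v := by
    -- apply the sublemma
    have h1 : (u * v) * ((u * y * u) * v) = u * v := by rw [h]; exact hS _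
    have h2 : (u * v) * ((u * y * u) * v) = (u * v * u) * y * (u * v) := by
      simp only [mul_assoc]
    rw [h2] at h1
    have h3 : (u * v) * (u * (y * (u * v))) * (u * v) = u * v := by
      have : (u * v) * (u * (y * (u * v))) * (u * v) = (u * v * u * y * (u * v)) * (u * v) := by
        simp only [mul_assoc]
      rw [this, h1, hS]
    have h4 := BW_sub' hS (u * v) (y * (u * v)) u h3
    have h5 : (u * v) * (y * (u * v)) * (u * v) = (u * v) * (y * ((u * v) * (u * v))) := by
      simp only [mul_assoc]
    rw [h5, hS] at h4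
    exact h4
  rw [mul_assoc]
  exact e

theorem BW_right {S : Type} [Semigroup S] (hS : ∀ x : S, x * x = x) (u v y : S)
    (h : BW_abs v y) : BW_abs (u * v) y := by
  unfold BW_abs at *
  have h1 : (u * v) * (u * (v * y * v)) = u * v := by rw [h]; exact hS _
  have h3 : (u * v) * ((u * v * y) * v) * (u * v) = u * v := by
    have : (u * v) * ((u * v * y) * v) * (u * v) = ((u * v) * (u * (v * y * v))) * (u * v) := by
      simp only [mul_assoc]
    rw [this, h1, hS]
  have h4 := BW_sub hS (u * v) (u * v * y) v h3
  have h5 : (u * v) * (u * v * y) * (u * v) = ((u * v) * (u * v)) * y * (u * v) := by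
    simp only [mul_assoc]
  rw [h5, hS] at h4
  exact h4

theorem BW_mul {S : Type} [Semigroup S] (hS : ∀ x : S, x * x = x) (x a b : S)
    (ha : BW_abs x a) (hb : BW_abs x b) : BW_abs x (a * b) := by
  unfold BW_abs at *
  -- m = b x a, x m x = x
  have hm : x * (b * x * a) * x = x := by
    calc x * (b * x * a) * x = (x * b * x) * (a * x) := by simp only [mul_assoc]
      _ = x * (a * x) := by rw [hb]
      _ = x := by rw [← mul_assoc, ha]
  calc x * (a * b) * x = (x * b * x) * (a * b) * (x * a * x) := by rw [ha, hb]
    _ = x * ((b * x * a) * (b * x * a)) * x := by simp only [mul_assoc]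
    _ = x * (b * x * a) * x := by rw [hS]
    _ = x := hm

theorem BW_occ_mul {n : ℕ} (i x : Fin n) (y : FreeSemigroup (Fin n)) :
    Occ i (FreeSemigroup.of x * y) ↔ i = x ∨ Occ i y := by
  unfold Occ
  rw [FreeSemigroup.head_mul, FreeSemigroup.tail_mul]
  simp

theorem BW_letter {S : Type} [Semigroup S] (hS : ∀ x : S, x * x = x) (n : ℕ) (f : Fin n → S)
    (i : Fin n) (p : FreeSemigroup (Fin n)) (h : Occ i p) :
    BW_abs (FreeSemigroup.lift f p) (f i) := by
  induction p using FreeSemigroup.recOnMul with
  | ih1 x =>
    have hx : i = x := by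
      unfold Occ at h
      simpa using h
    subst hx
    rw [FreeSemigroup.lift_of]
    exact BW_self hS _
  | ih2 x y _ ihy =>
    rw [BW_occ_mul] at h
    rw [map_mul]
    rcases h with h | h
    · subst h
      rw [FreeSemigroup.lift_of]
      exact BW_left hS _ _ _ (BW_self hS _)
    · exact BW_right hS _ _ _ (ihy h)

theorem BW_ok : S_BW := by
  intro S _ hS n f p t ht
  change BW_abs (FreeSemigroup.lift f p) (FreeSemigroup.lift f t)
  induction t using FreeSemigroup.recOnMul with
  | ih1 x =>
    rw [FreeSemigroup.lift_of]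
    exact BW_letter hS n f x p (ht x (Or.inl rfl))
  | ih2 x y _ ihy =>
    rw [map_mul, FreeSemigroup.lift_of]
    exact BW_mul hS _ _ _
      (BW_letter hS n f x p (ht x ((BW_occ_mul x x y).2 (Or.inl rfl))))
      (ihy (fun i hi => ht i ((BW_occ_mul i x y).2 (Or.inr hi))))

end Pool.Agent.H72R3.II
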