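import Pool.Agent.H72R3.II.Stmts

set_option autoImplicit false

namespace Pool.Agent.H72R3.II

theorem COM_pow1 {S S' : Type} [Semigroup S] [Semigroup S'] (T : S →ₙ* S') (a : S) (k : ℕ) :
    T (pow1 a k) = pow1 (T a) k := by
  induction k with
  | zero => rfl
  | succ k ih =>
    change T (pow1 a k * a) = pow1 (T a) k * T a
    rw [map_mul, ih]

theorem COM_nat (k : ℕ) : pow1 (Multiplicative.ofAdd 1 : Multiplicative ℕ) k =
    Multiplicative.ofAdd (k + 1) := by
  induction k with
  | zero => rfl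
  | succ k ih =>
    change pow1 (Multiplicative.ofAdd 1 : Multiplicative ℕ) k * Multiplicative.ofAdd 1 = _
    rw [ih, ← ofAdd_add]

theorem COM_arith {a b x y : ℕ}
    (h : a * (x + y + 1) + b * (x + y + 2) = x * (x + y + 1) + y * (x + y + 2)) :
    a = x ∧ b = y := by
  have h' : (a + b) * (x + y + 1) + b = (x + y) * (x + y + 1) + y := by linarith
  have h1 : a + b = x + y := by
    rcases lt_trichotomy (a + b) (x + y) with h1 | h1 | h1
    · exfalso
      have h2 : (a + b + 1) * (x + y + 1) ≤ (x + y) * (x + y + 1) :=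
        Nat.mul_le_mul_right _ h1
      nlinarith
    · exact h1
    · exfalso
      have h2 : (x + y + 1) * (x + y + 1) ≤ (a + b) * (x + y + 1) :=
        Nat.mul_le_mul_right _ h1
      nlinarith
  rw [h1] at h'
  omega

theorem COM_monoid {n : ℕ} {w : FreeSemigroup (Fin n)} {v : Fin n → ℕ}
    (hv : ∀ (S : Type) [CommSemigroup S] (f : Fin n → S),
      ((FreeSemigroup.lift f w : S) : WithOne S) = ∏ j, ((f j : S) : WithOne S) ^ v j)
    (f : Fin n → Multiplicative ℕ) : FreeSemigroup.lift f w = ∏ j, f j ^ v j := by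
  have h := congrArg (WithOne.lift (MulHom.id (Multiplicative ℕ))) (hv (Multiplicative ℕ) f)
  rw [map_prod] at h
  simpa using h

theorem COM_ok (h : S_REP) : S_COM := by
  intro E hC hNA g
  have hall : ∀ (S : Type) [CommSemigroup S], Models S E := by
    intro S _
    by_contra hS
    exact hNA ⟨S, inferInstance, hS⟩
  obtain ⟨w, rfl⟩ := val_surj 2 g
  obtain ⟨v, -, hv⟩ := h 2 w
  obtain ⟨T, hT⟩ := F_lift (F_models (E := E) 1) 2
    (fun i : Fin 2 => if i = 0 then pow1 (gen E 1 0) (v 0 + v 1) else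
      pow1 (gen E 1 0) (v 0 + v 1 + 1))
  obtain ⟨ψ, hψ⟩ := F_lift (hall (Multiplicative ℕ)) 1 (fun _ => Multiplicative.ofAdd 1)
  refine ⟨T, fun x hx => ?_⟩
  obtain ⟨w', rfl⟩ := val_surj 2 x
  obtain ⟨v', -, hv'⟩ := h 2 w'
  have key : ∀ (u : FreeSemigroup (Fin 2)) (c : Fin 2 → ℕ),
      (∀ (S : Type) [CommSemigroup S] (f : Fin 2 → S),
        ((FreeSemigroup.lift f u : S) : WithOne S) = ∏ j, ((f j : S) : WithOne S) ^ c j) →
      Multiplicative.toAdd (ψ (T (val E 2 u))) = c 0 * (v 0 + v 1 + 1) + c 1 * (v 0 + v 1 + 2) := by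
    intro u c hc
    rw [val_eq_lift, map_lift, map_lift, COM_monoid hc, Fin.prod_univ_two, hT, hT]
    simp only [if_true, Fin.isValue, one_ne_zero, if_false]
    rw [COM_pow1, COM_pow1, hψ, COM_nat, COM_nat]
    simp [toAdd_mul, toAdd_pow]
  have e := key w' v' hv'
  rw [hx, key w v hv] at e
  obtain ⟨e0, e1⟩ := COM_arith e.symm
  have hvv : v' = v := by
    funext j
    fin_cases j
    · exact e0
    · exact e1
  letI : CommSemigroup (F E 2) :=
    { (inferInstance : Semigroup (F E 2)) with mul_comm := hC (F E 2) (F_models 2) }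
  have f1 := hv (F E 2) (gen E 2)
  have f2 := hv' (F E 2) (gen E 2)
  rw [hvv, ← f1] at f2
  have f3 := WithOne.coe_inj.1 f2
  rw [val_eq_lift, val_eq_lift]
  exact f3

theorem EXA_ok : S_EXA := by
  intro E hN g
  obtain ⟨T, -⟩ := F_lift (F_models (E := E) 1) 2 (fun _ : Fin 2 => gen E 1 0)
  refine ⟨T, fun x _ => ?_⟩
  have := hN (F E 2) (F_models 2) (FreeSemigroup.of x) (FreeSemigroup.of g) (by simp) (by simp)
  simpa using this

end Pool.Agent.H72R3.II
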