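import Pool.Agent.H72R3.II.Stmts

set_option autoImplicit false

namespace Pool.Agent.H72R3.II

theorem SUB_ok : S_SUB := by
  intro E m n hm hmn u W h φ
  classical
  obtain ⟨ι, hι⟩ := F_lift (F_models (E := E) n) m (fun i => gen E n (Fin.castLE hmn i))
  obtain ⟨ρ, hρ⟩ := F_lift (F_models (E := E) m) n
    (fun i => if h : i.1 < m then gen E m ⟨i.1, h⟩ else gen E m ⟨0, hm⟩)
  have hid : ρ.comp ι = MulHom.id (F E m) := by
    apply F_ext
    intro i
    rw [MulHom.comp_apply, hι, hρ, MulHom.id_apply]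
    have : (Fin.castLE hmn i).1 < m := i.2
    rw [dif_pos this]
    rfl
  have hid' : ∀ x, ρ (ι x) = x := fun x => DFunLike.congr_fun hid x
  obtain ⟨w, hw, hu⟩ := h (ι.comp φ)
  refine ⟨w, hw, ?_⟩
  have h2 := congrArg ρ hu
  rw [MulHom.comp_apply, MulHom.comp_apply, hid', hid'] at h2
  exact h2

theorem CRIT_map {S : Type} [Semigroup S] {n : ℕ} (φ : FreeSemigroup ℕ →ₙ* S)
    (w : FreeSemigroup (Fin n)) :
    φ (FreeSemigroup.map Fin.val w) =
      FreeSemigroup.lift (fun a : Fin n => φ (FreeSemigroup.of a.1)) w := by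
  have : (FreeSemigroup.map Fin.val w : FreeSemigroup ℕ) =
      FreeSemigroup.lift (fun a : Fin n => FreeSemigroup.of a.1) w := rfl
  rw [this, map_lift]

theorem CRIT_ok : S_CRIT := by
  intro E m n hm hmn
  classical
  constructor
  · intro H g
    obtain ⟨w, rfl⟩ := val_surj (E := E) n g
    have hn : 0 < n := lt_of_lt_of_le hm hmn
    let s : FreeSemigroup ℕ →ₙ* F E n :=
      FreeSemigroup.lift (fun i => if h : i < n then gen E n ⟨i, h⟩ else gen E n ⟨0, hn⟩)
    have hs : ∀ w' : FreeSemigroup (Fin n), s (FreeSemigroup.map Fin.val w') = val E n w' := by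
      intro w'
      rw [CRIT_map, val_eq_lift]
      congr 2
      funext a
      show FreeSemigroup.lift _ (FreeSemigroup.of a.1) = _
      rw [FreeSemigroup.lift_of, dif_pos a.2]
    let u : FreeSemigroup ℕ := FreeSemigroup.map Fin.val w
    let W : Set (FreeSemigroup ℕ) := {v | s v ≠ s u}
    by_cases hW : W.Nonempty
    · have h1 : ¬ SatIncl (F E n) u W := by
        intro h
        obtain ⟨v, hv, he⟩ := h s
        exact hv he.symm
      have h2 : ¬ SatIncl (F E m) u W := fun h => h1 ((H u W hW).1 h)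
      unfold SatIncl at h2
      push Not at h2
      obtain ⟨φ, hφ⟩ := h2
      obtain ⟨T, hT⟩ := F_lift (F_models (E := E) m) n (fun i => φ (FreeSemigroup.of i.1))
      have hTv : ∀ w', T (val E n w') = φ (FreeSemigroup.map Fin.val w') := by
        intro w'
        rw [val_eq_lift, map_lift, CRIT_map]
        congr 2
        funext a
        exact hT a
      refine ⟨T, fun h hh => ?_⟩
      obtain ⟨w', rfl⟩ := val_surj (E := E) n h
      rw [hTv, hTv] at hh
      by_contra hne
      refine hφ (FreeSemigroup.map Fin.val w') ?_ hh.symm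
      show s _ ≠ s _
      rw [hs]
      show _ ≠ s (FreeSemigroup.map Fin.val w)
      rw [hs]
      exact hne
    · obtain ⟨T, _⟩ := F_lift (F_models (E := E) m) n (fun _ => gen E m ⟨0, hm⟩)
      refine ⟨T, fun h _ => ?_⟩
      obtain ⟨w', rfl⟩ := val_surj (E := E) n h
      by_contra hne
      apply hW
      refine ⟨FreeSemigroup.map Fin.val w', ?_⟩
      show s _ ≠ s (FreeSemigroup.map Fin.val w)
      rw [hs, hs]
      exact hne
  · intro hI u W _
    refine ⟨fun h φ => ?_, SUB_ok E m n hm hmn u W⟩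
    obtain ⟨T, hT⟩ := hI (φ u)
    obtain ⟨w, hw, he⟩ := h (T.comp φ)
    exact ⟨w, hw, (hT (φ w) (by rw [MulHom.comp_apply, MulHom.comp_apply] at he; exact he.symm)).symm⟩

end Pool.Agent.H72R3.II
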