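import Pool.Agent.H72R3.II.Stmts

/-!
# Task DEP: integral dependence
-/

set_option autoImplicit false

namespace Pool.Agent.H72R3.II

theorem DEP_ok : S_DEP := by
  intro n v hv
  classical
  -- an integral relation
  have hdet : (Matrix.of (fun (j i : Fin (n + 1)) =>
      if h : (j : ℕ) < n then ((v i ⟨j, h⟩ : ℕ) : ℤ) else 0)).det = 0 := by
    apply Matrix.det_eq_zero_of_row_eq_zero (Fin.last n)
    intro i
    simp
  obtain ⟨c₀, hc0, hc⟩ := Matrix.exists_mulVec_eq_zero_iff.mpr hdet
  have hrel : ∀ j, ∑ i, c₀ i * (v i j : ℤ) = 0 := by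
    intro j
    have h1 := congrFun hc (Fin.castSucc j)
    simp only [Matrix.mulVec, dotProduct, Matrix.of_apply, Pi.zero_apply] at h1
    rw [← h1]
    refine Finset.sum_congr rfl fun i _ => ?_
    have hj : ((Fin.castSucc j : Fin (n + 1)) : ℕ) < n := by simp
    rw [dif_pos hj]
    rw [mul_comm]
    congr 2
  -- the ideal of the coefficients is principal
  obtain ⟨d, hd⟩ := (IsPrincipalIdealRing.principal (Ideal.span (Set.range c₀))).principal
  have hd' : Ideal.span (Set.range c₀) = Ideal.span {d} := hd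
  have hdvd : ∀ i, d ∣ c₀ i := by
    intro i
    rw [← Ideal.mem_span_singleton, ← hd']
    exact Ideal.subset_span ⟨i, rfl⟩
  choose c hcd using hdvd
  have hd0 : d ≠ 0 := by
    intro h
    apply hc0
    funext i
    rw [hcd i, h]
    simp
  obtain ⟨lam, hlam⟩ := (Ideal.mem_span_range_iff_exists_fun (x := d) (v := c₀)).mp (by
    rw [hd']; exact Ideal.mem_span_singleton_self d)
  have hb : ∑ i, lam i * c i = 1 := by
    have : d * ∑ i, lam i * c i = d * 1 := by
      rw [Finset.mul_sum, mul_one]
      conv_rhs => rw [← hlam]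
      refine Finset.sum_congr rfl fun i _ => ?_
      rw [hcd i]; ring
    exact mul_left_cancel₀ hd0 this
  have hr : ∀ j, ∑ i, c i * (v i j : ℤ) = 0 := by
    intro j
    have : d * ∑ i, c i * (v i j : ℤ) = d * 0 := by
      rw [Finset.mul_sum, mul_zero, ← hrel j]
      refine Finset.sum_congr rfl fun i _ => ?_
      rw [hcd i]; ring
    exact mul_left_cancel₀ hd0 this
  have hcne : ∃ i, c i ≠ 0 := by
    by_contra hcon
    push Not at hcon
    simp [hcon] at hb
  have hsup : ∀ i, ∃ j, v i j ≠ 0 := by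
    intro i
    by_contra hcon
    push Not at hcon
    exact hv i (funext hcon)
  refine ⟨c, lam, hr, hb, ?_, ?_⟩
  · by_contra hcon
    push Not at hcon
    obtain ⟨i, hi⟩ := hcne
    obtain ⟨j, hj⟩ := hsup i
    have h1 := (Finset.sum_eq_zero_iff_of_nonpos (s := Finset.univ)
      (f := fun i => c i * (v i j : ℤ))
      (fun i _ => mul_nonpos_of_nonpos_of_nonneg (hcon i) (Nat.cast_nonneg _))).mp (hr j) i
      (Finset.mem_univ i)
    rcases mul_eq_zero.mp h1 with h | h
    · exact hi h
    · exact hj (by exact_mod_cast h)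
  · by_contra hcon
    push Not at hcon
    obtain ⟨i, hi⟩ := hcne
    obtain ⟨j, hj⟩ := hsup i
    have h1 := (Finset.sum_eq_zero_iff_of_nonneg (s := Finset.univ)
      (f := fun i => c i * (v i j : ℤ))
      (fun i _ => mul_nonneg (hcon i) (Nat.cast_nonneg _))).mp (hr j) i
      (Finset.mem_univ i)
    rcases mul_eq_zero.mp h1 with h | h
    · exact hi h
    · exact hj (by exact_mod_cast h)

end Pool.Agent.H72R3.II
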