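import Mathlib

/-!
# Separating the free semigroups of a variety by identical inclusions (MP_b02441_al): definitions
-/

set_option autoImplicit false

namespace Pool.Agent.H72R3.II

/-- The semigroup `S` satisfies all identities of `E` (an identity is a pair of words over the
alphabet `ℕ`), i.e. it lies in the semigroup variety `V` defined by `E`. -/
def Models (S : Type) [Semigroup S] (E : Set (FreeSemigroup ℕ × FreeSemigroup ℕ)) : Prop :=
  ∀ e ∈ E, ∀ φ : ℕ → S, FreeSemigroup.lift φ e.1 = FreeSemigroup.lift φ e.2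

/-- The fully invariant congruence of `V` on the words in `n` letters. -/
def relCon (E : Set (FreeSemigroup ℕ × FreeSemigroup ℕ)) (n : ℕ) : Con (FreeSemigroup (Fin n)) :=
  conGen (fun a b => ∃ e ∈ E, ∃ f : ℕ → FreeSemigroup (Fin n),
    a = FreeSemigroup.lift f e.1 ∧ b = FreeSemigroup.lift f e.2)

/-- The free semigroup `F_n(V)` of rank `n` of the variety `V` defined by `E`. -/
def F (E : Set (FreeSemigroup ℕ × FreeSemigroup ℕ)) (n : ℕ) : Type := (relCon E n).Quotient

instance (E : Set (FreeSemigroup ℕ × FreeSemigroup ℕ)) (n : ℕ) : Semigroup (F E n) :=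
  inferInstanceAs (Semigroup (relCon E n).Quotient)

/-- `S` satisfies the identical inclusion `u ∈̂ W`. -/
def SatIncl (S : Type) [Semigroup S] (u : FreeSemigroup ℕ) (W : Set (FreeSemigroup ℕ)) : Prop :=
  ∀ φ : FreeSemigroup ℕ →ₙ* S, ∃ w ∈ W, φ u = φ w

/-- `S` and `S'` satisfy the same identical inclusions. -/
def InclEquiv (S S' : Type) [Semigroup S] [Semigroup S'] : Prop :=
  ∀ (u : FreeSemigroup ℕ) (W : Set (FreeSemigroup ℕ)), W.Nonempty →
    (SatIncl S u W ↔ SatIncl S' u W)

/-- The finitely generated free semigroups of the variety are separated by identical inclusions. -/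
def Separated (E : Set (FreeSemigroup ℕ × FreeSemigroup ℕ)) : Prop :=
  ∀ m n : ℕ, 1 ≤ m → 1 ≤ n → m ≠ n → ¬ InclEquiv (F E m) (F E n)

/-- The variety consists of commutative semigroups. -/
def CommV (E : Set (FreeSemigroup ℕ × FreeSemigroup ℕ)) : Prop :=
  ∀ (S : Type) [Semigroup S], Models S E → ∀ a b : S, a * b = b * a

/-- Some commutative semigroup is not in the variety. -/
def NotAllComm (E : Set (FreeSemigroup ℕ × FreeSemigroup ℕ)) : Prop :=
  ∃ (S : Type) (_ : CommSemigroup S), ¬ Models S E

/-- In every semigroup of the variety all products of at least `c` factors are equal (nilpotent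
of class at most `c`). -/
def Nilp (E : Set (FreeSemigroup ℕ × FreeSemigroup ℕ)) (c : ℕ) : Prop :=
  ∀ (S : Type) [Semigroup S], Models S E → ∀ w w' : FreeSemigroup S,
    c ≤ w.length → c ≤ w'.length → FreeSemigroup.lift id w = FreeSemigroup.lift id w'

/-- `pow1 a k = a ^ (k + 1)` -/
def pow1 {S : Type} [Semigroup S] (a : S) : ℕ → S
  | 0 => a
  | k + 1 => pow1 a k * a

/-- The exceptional nilpotent varieties: the trivial variety, and for some `c` the variety is
nilpotent of class at most `c + 2` and does not satisfy `x ^ (c + 1) = x ^ (c + 2)`, i.e. the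
power `x ^ (c + 1)` is not zero. -/
def Exceptional (E : Set (FreeSemigroup ℕ × FreeSemigroup ℕ)) : Prop :=
  Nilp E 1 ∨ ∃ c : ℕ, Nilp E (c + 2) ∧
    ∃ (S : Type) (_ : Semigroup S), Models S E ∧ ∃ a : S, pow1 a c ≠ pow1 a (c + 1)

/-! ### Basic facts -/

variable {E : Set (FreeSemigroup ℕ × FreeSemigroup ℕ)}

/-- the value of a word in `F_n(V)` -/
def val (E : Set (FreeSemigroup ℕ × FreeSemigroup ℕ)) (n : ℕ) : FreeSemigroup (Fin n) →ₙ* F E n where
  toFun w := (w : (relCon E n).Quotient)
  map_mul' _ _ := rfl

/-- the free generators -/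
def gen (E : Set (FreeSemigroup ℕ × FreeSemigroup ℕ)) (n : ℕ) (i : Fin n) : F E n :=
  val E n (FreeSemigroup.of i)

theorem val_surj (n : ℕ) : Function.Surjective (val E n) := by
  intro g
  exact Quotient.inductionOn' g (fun w => ⟨w, rfl⟩)

theorem hom_ext {S : Type} [Semigroup S] {A : Type} (f g : FreeSemigroup A →ₙ* S)
    (h : ∀ a, f (FreeSemigroup.of a) = g (FreeSemigroup.of a)) : f = g :=
  FreeSemigroup.hom_ext (funext h)

theorem val_eq_lift (n : ℕ) (w : FreeSemigroup (Fin n)) :
    val E n w = FreeSemigroup.lift (gen E n) w := by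
  have : val E n = FreeSemigroup.lift (gen E n) := by
    apply hom_ext
    intro a
    simp [gen]
  rw [this]

/-- homomorphisms and evaluation of words -/
theorem map_lift {A S S' : Type} [Semigroup S] [Semigroup S'] (T : S →ₙ* S') (f : A → S)
    (w : FreeSemigroup A) :
    T (FreeSemigroup.lift f w) = FreeSemigroup.lift (fun a => T (f a)) w := by
  have : T.comp (FreeSemigroup.lift f) = FreeSemigroup.lift (fun a => T (f a)) := by
    apply hom_ext
    intro a
    simp
  rw [← this]
  rfl

theorem F_ext {S : Type} [Semigroup S] {n : ℕ} (T T' : F E n →ₙ* S)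
    (h : ∀ i, T (gen E n i) = T' (gen E n i)) : T = T' := by
  ext g
  obtain ⟨w, rfl⟩ := val_surj n g
  have : T.comp (val E n) = T'.comp (val E n) := by
    apply hom_ext
    intro a
    exact h a
  exact DFunLike.congr_fun this w

/-- `F_n(V)` belongs to `V`. -/
theorem F_models (n : ℕ) : Models (F E n) E := by
  intro e he φ
  have hs := val_surj (E := E) n
  choose f hf using fun k => hs (φ k)
  have h1 : ∀ w : FreeSemigroup ℕ, FreeSemigroup.lift φ w = val E n (FreeSemigroup.lift f w) := by
    intro w
    rw [map_lift]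
    congr 1
    congr 1
    funext k
    exact (hf k).symm
  rw [h1, h1]
  apply (Con.eq _).2
  exact ConGen.Rel.of _ _ ⟨e, he, f, rfl, rfl⟩

/-- the universal property of `F_n(V)` -/
theorem F_lift {S : Type} [Semigroup S] (hS : Models S E) (n : ℕ) (a : Fin n → S) :
    ∃ T : F E n →ₙ* S, ∀ i, T (gen E n i) = a i := by
  have hle : relCon E n ≤ Con.ker (FreeSemigroup.lift a) := by
    apply Con.conGen_le.2
    rintro x y ⟨e, he, f, rfl, rfl⟩
    change FreeSemigroup.lift a (FreeSemigroup.lift f e.1) =
      FreeSemigroup.lift a (FreeSemigroup.lift f e.2)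
    rw [map_lift, map_lift]
    exact hS e he _
  refine ⟨⟨fun g => Quotient.liftOn' g (fun w => FreeSemigroup.lift a w) (fun x y h => hle h),
    ?_⟩, ?_⟩
  · intro x y
    refine Quotient.inductionOn₂' x y (fun v w => ?_)
    exact map_mul (FreeSemigroup.lift a) v w
  · intro i
    change FreeSemigroup.lift a (FreeSemigroup.of i) = a i
    simp

end Pool.Agent.H72R3.II
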