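import Pool.Agent.H72R3.II.Stmts

set_option autoImplicit false

namespace Pool.Agent.H72R3.II

variable {E : Set (FreeSemigroup ℕ × FreeSemigroup ℕ)}

theorem EXB_map_pow1 {S S' : Type} [Semigroup S] [Semigroup S'] (T : S →ₙ* S') (a : S) (k : ℕ) :
    T (pow1 a k) = pow1 (T a) k := by
  induction k with
  | zero => rfl
  | succ k ih =>
    show T (pow1 a k * a) = pow1 (T a) k * T a
    rw [map_mul, ih]

theorem EXB_comm {S : Type} [Semigroup S] (a : S) (k : ℕ) : a * pow1 a k = pow1 a (k + 1) := by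
  induction k with
  | zero => rfl
  | succ k ih =>
    show a * (pow1 a k * a) = pow1 a (k + 1) * a
    rw [← mul_assoc, ih]

theorem EXB_len {A : Type} (w : FreeSemigroup A) (k : ℕ) : k + 1 ≤ (pow1 w k).length := by
  induction k with
  | zero =>
    show 1 ≤ w.length
    exact Nat.succ_le_succ (Nat.zero_le _)
  | succ k ih =>
    show k + 1 + 1 ≤ (pow1 w k * w).length
    rw [FreeSemigroup.length_mul]
    have : 1 ≤ w.length := Nat.succ_le_succ (Nat.zero_le _)
    omega

theorem EXB_const {A S : Type} [Semigroup S] (a : S) (w : FreeSemigroup A) :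
    ∃ k, w.length = k + 1 ∧ FreeSemigroup.lift (fun _ : A => a) w = pow1 a k := by
  induction w using FreeSemigroup.recOnMul with
  | ih1 x => exact ⟨0, rfl, by simp [pow1]⟩
  | ih2 x y _ ih =>
    obtain ⟨k, h1, h2⟩ := ih
    refine ⟨k + 1, ?_, ?_⟩
    · rw [FreeSemigroup.length_mul, h1, FreeSemigroup.length_of]
      omega
    · rw [map_mul, h2, FreeSemigroup.lift_of, EXB_comm]

/-- long products are equal -/
theorem EXB_L0 {c : ℕ} (hN : Nilp E (c + 2)) {S : Type} [Semigroup S] (hS : Models S E)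
    {A : Type} (f f' : A → S) (w w' : FreeSemigroup A) (h : c + 2 ≤ w.length)
    (h' : c + 2 ≤ w'.length) : FreeSemigroup.lift f w = FreeSemigroup.lift f' w' := by
  have h1 : ∀ (f : A → S) (w : FreeSemigroup A),
      FreeSemigroup.lift f w = FreeSemigroup.lift id (FreeSemigroup.map f w) := by
    intro f w
    have := map_lift (FreeSemigroup.lift (id : S → S)) (fun a => FreeSemigroup.of (f a)) w
    simp only [FreeSemigroup.lift_of, id] at this
    rw [← this]
    rfl
  rw [h1 f w, h1 f' w']
  apply hN S hS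
  · rw [FreeSemigroup.length_map]
    exact h
  · rw [FreeSemigroup.length_map]
    exact h'

/-- the zero -/
def EXB_z (E : Set (FreeSemigroup ℕ × FreeSemigroup ℕ)) (c n : ℕ) : F E (n + 1) :=
  pow1 (gen E (n + 1) 0) (c + 1)

theorem EXB_z_val (c n : ℕ) :
    EXB_z E c n = val E (n + 1) (pow1 (FreeSemigroup.of 0) (c + 1)) := by
  rw [EXB_map_pow1]
  rfl

theorem EXB_Z1 {c : ℕ} (hN : Nilp E (c + 2)) (n : ℕ) (w : FreeSemigroup (Fin (n + 1)))
    (h : c + 2 ≤ w.length) : val E (n + 1) w = EXB_z E c n := by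
  rw [EXB_z_val, val_eq_lift, val_eq_lift]
  exact EXB_L0 hN (F_models _) _ _ _ _ h (EXB_len _ _)

theorem EXB_Z2 {c : ℕ} (hN : Nilp E (c + 2)) (n : ℕ) (x : F E (n + 1)) :
    x * EXB_z E c n = EXB_z E c n ∧ EXB_z E c n * x = EXB_z E c n := by
  obtain ⟨w, rfl⟩ := val_surj (E := E) (n + 1) x
  have h1 := EXB_len (FreeSemigroup.of (0 : Fin (n + 1))) (c + 1)
  constructor
  · conv_lhs => rw [EXB_z_val, ← map_mul]
    apply EXB_Z1 hN
    rw [FreeSemigroup.length_mul]
    omega
  · conv_lhs => rw [EXB_z_val, ← map_mul]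
    apply EXB_Z1 hN
    rw [FreeSemigroup.length_mul]
    omega

theorem EXB_Z3 {c : ℕ} (hN : Nilp E (c + 2)) (n m : ℕ) (T : F E (n + 1) →ₙ* F E (m + 1)) :
    T (EXB_z E c n) = EXB_z E c m := by
  unfold EXB_z
  rw [EXB_map_pow1]
  obtain ⟨w, hw⟩ := val_surj (E := E) (m + 1) (T (gen E (n + 1) 0))
  rw [← hw, ← EXB_map_pow1]
  exact EXB_Z1 hN m _ (EXB_len _ _)

theorem EXB_P {c : ℕ} (hN : Nilp E (c + 2)) {S : Type} [Semigroup S] (hS : Models S E) {a : S}
    (ha : pow1 a c ≠ pow1 a (c + 1)) (n : ℕ) (w : FreeSemigroup (Fin (n + 1)))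
    (h : val E (n + 1) w = EXB_z E c n) : c + 2 ≤ w.length := by
  by_contra hlt
  push Not at hlt
  apply ha
  obtain ⟨φ, hφ⟩ := F_lift hS (n + 1) (fun _ => a)
  have h1 := congrArg φ h
  unfold EXB_z at h1
  rw [EXB_map_pow1, hφ, val_eq_lift, map_lift] at h1
  have h2 : (fun i => φ (gen E (n + 1) i)) = fun _ : Fin (n + 1) => a := funext hφ
  rw [h2] at h1
  obtain ⟨k, hk, hk2⟩ := EXB_const a w
  rw [hk2] at h1
  have h3 : ∀ t, pow1 a (k + t) = pow1 a (c + 1 + t) := by
    intro t
    induction t with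
    | zero => exact h1
    | succ t ih =>
      show pow1 a (k + t) * a = pow1 a (c + 1 + t) * a
      rw [ih]
  have h4 := h3 (c - k)
  rw [show k + (c - k) = c by omega] at h4
  rw [h4]
  have h5 : ∀ j, pow1 a j = FreeSemigroup.lift (fun _ : Unit => a) (pow1 (FreeSemigroup.of ()) j) := by
    intro j
    rw [EXB_map_pow1, FreeSemigroup.lift_of]
  rw [h5 (c + 1 + (c - k)), h5 (c + 1)]
  apply EXB_L0 hN hS
  · have := EXB_len (FreeSemigroup.of ()) (c + 1 + (c - k))
    omega
  · exact EXB_len _ _

theorem EXB_ok : S_EXB := by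
  classical
  rintro E c hN ⟨S, instS, hS, a, ha⟩ g
  obtain ⟨w, rfl⟩ := val_surj (E := E) (c + 3) g
  by_cases hw : c + 2 ≤ w.length
  · obtain ⟨T, hT⟩ := F_lift (F_models (E := E) (c + 2)) (c + 3) (fun _ => gen E (c + 2) 0)
    refine ⟨T, ?_⟩
    intro h hh
    obtain ⟨w', rfl⟩ := val_surj (E := E) (c + 3) h
    have hz : val E (c + 3) w = EXB_z E c (c + 2) := EXB_Z1 hN _ w hw
    rw [hz, EXB_Z3 hN (c + 2) (c + 1) T] at hh
    have h1 : T (val E (c + 3) w') = val E (c + 2) (FreeSemigroup.map (fun _ => 0) w') := by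
      rw [val_eq_lift, val_eq_lift, map_lift]
      have h2 : (fun i => T (gen E (c + 3) i)) = fun _ => gen E (c + 2) 0 := funext hT
      rw [h2]
      have h3 := map_lift (FreeSemigroup.lift (gen E (c + 2)))
        (fun _ : Fin (c + 3) => FreeSemigroup.of (0 : Fin (c + 2))) w'
      simp only [FreeSemigroup.lift_of] at h3
      rw [← h3]
      rfl
    rw [h1] at hh
    have h4 := EXB_P hN hS ha (c + 1) _ hh
    rw [FreeSemigroup.length_map] at h4
    rw [hz]
    exact EXB_Z1 hN _ w' h4
  · push Not at hw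
    obtain ⟨I, hI⟩ : ∃ I : Finset (Fin (c + 3)), I = (w.head :: w.tail).toFinset := ⟨_, rfl⟩
    have hcard : Fintype.card {x // x ∈ I} ≤ Fintype.card (Fin (c + 2)) := by
      rw [Fintype.card_coe, Fintype.card_fin, hI]
      refine (List.toFinset_card_le _).trans ?_
      have : (w.head :: w.tail).length = w.length := rfl
      rw [this]
      omega
    obtain ⟨ι⟩ := Function.Embedding.nonempty_of_card_le hcard
    obtain ⟨T, hT⟩ := F_lift (F_models (E := E) (c + 2)) (c + 3)
      (fun i => if h : i ∈ I then gen E (c + 2) (ι ⟨i, h⟩) else EXB_z E c (c + 1))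
    obtain ⟨R, hR⟩ := F_lift (F_models (E := E) (c + 3)) (c + 2)
      (fun j => if h : ∃ i : {x // x ∈ I}, ι i = j then gen E (c + 3) (h.choose : Fin (c + 3))
        else EXB_z E c (c + 2))
    have hTz := EXB_Z3 hN (c + 2) (c + 1) T
    have hRz := EXB_Z3 hN (c + 1) (c + 2) R
    have hRT : ∀ i ∈ I, R (T (gen E (c + 3) i)) = gen E (c + 3) i := by
      intro i hi
      rw [hT, dif_pos hi, hR]
      have hex : ∃ i' : {x // x ∈ I}, ι i' = ι ⟨i, hi⟩ := ⟨_, rfl⟩
      rw [dif_pos hex]
      have := ι.injective hex.choose_spec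
      rw [this]
    have hA : ∀ u : FreeSemigroup (Fin (c + 3)), T (val E (c + 3) u) = EXB_z E c (c + 1) ∨
        R (T (val E (c + 3) u)) = val E (c + 3) u := by
      intro u
      induction u using FreeSemigroup.recOnMul with
      | ih1 i =>
        by_cases hi : i ∈ I
        · exact Or.inr (hRT i hi)
        · left
          show T (gen E (c + 3) i) = _
          rw [hT, dif_neg hi]
      | ih2 x y ihx ihy =>
        rw [map_mul, map_mul]
        rcases ihx with h1 | h1
        · left
          rw [h1]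
          exact (EXB_Z2 hN (c + 1) _).2
        · rcases ihy with h2 | h2
          · left
            rw [h2]
            exact (EXB_Z2 hN (c + 1) _).1
          · right
            rw [map_mul, h1, h2]
    have hB : ∀ u : FreeSemigroup (Fin (c + 3)), (∀ i ∈ u.head :: u.tail, i ∈ I) →
        R (T (val E (c + 3) u)) = val E (c + 3) u := by
      intro u
      induction u using FreeSemigroup.recOnMul with
      | ih1 i =>
        intro h
        exact hRT i (h i (List.mem_cons_self))
      | ih2 x y ihx ihy =>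
        intro h
        rw [map_mul, map_mul, map_mul]
        rw [ihx (fun i hi => h i (by
          have h1 : i = x := by
            rcases List.mem_cons.mp hi with h2 | h2
            · exact h2
            · exact absurd h2 (List.not_mem_nil)
          rw [h1]
          exact List.mem_cons_self)),
          ihy (fun i hi => h i (List.mem_cons_of_mem _ hi))]
    refine ⟨T, ?_⟩
    intro h hh
    obtain ⟨w', rfl⟩ := val_surj (E := E) (c + 3) h
    have hg : R (T (val E (c + 3) w)) = val E (c + 3) w := hB w (fun i hi => by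
      rw [hI, List.mem_toFinset]
      exact hi)
    rcases hA w' with h1 | h1
    · exfalso
      rw [hh] at h1
      rw [h1, hRz] at hg
      have h2 := EXB_P hN hS ha (c + 2) w hg.symm
      omega
    · rw [← h1, hh, hg]

end Pool.Agent.H72R3.II
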