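import Pool.Agent.H72R3.II.Stmts

set_option autoImplicit false

namespace Pool.Agent.H72R3.II

theorem KEY_pow {M : Type} [Monoid M] (y : M) (N : ℕ) (h : y ^ N * y ^ N = y ^ N) :
    ∀ s : ℕ, 1 ≤ s → y ^ (N * s) = y ^ N := by
  intro s hs
  induction s, hs using Nat.le_induction with
  | base => rw [mul_one]
  | succ s _ ih => rw [Nat.mul_succ, pow_add, ih, h]

theorem KEY_ok (h1 : S_REP) (h2 : S_REAL) : S_KEY := by
  intro E n N hC hn hN hP hI
  let cs : ∀ k, CommSemigroup (F E k) := fun k =>
    { (inferInstance : Semigroup (F E k)) with mul_comm := hC (F E k) (F_models k) }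
  obtain ⟨we, -, hwe⟩ := h2 (n + 1) (fun _ => N) (by
    intro h
    have := congrFun h 0
    simp at this
    omega)
  obtain ⟨T, hT⟩ := hI (val E (n + 1) we)
  choose u hu using fun i : Fin (n + 1) => val_surj (E := E) n (T (gen E (n + 1) i))
  choose v hvs hv using fun i => h1 n (u i)
  have hT0 : ∀ i, ((T (gen E (n + 1) i) : F E n) : WithOne (F E n)) =
      ∏ j, ((gen E n j : F E n) : WithOne (F E n)) ^ v i j := by
    intro i
    rw [← hu i, val_eq_lift]
    exact hv i (F E n) (gen E n)
  have hev : ∀ (w : FreeSemigroup (Fin (n + 1))) (a : Fin (n + 1) → ℕ),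
      (∀ (S : Type) [CommSemigroup S] (f : Fin (n + 1) → S),
        ((FreeSemigroup.lift f w : S) : WithOne S) = ∏ j, ((f j : S) : WithOne S) ^ a j) →
      ((T (val E (n + 1) w) : F E n) : WithOne (F E n)) =
        ∏ j, ((gen E n j : F E n) : WithOne (F E n)) ^ (∑ i, a i * v i j) := by
    intro w a hw
    rw [val_eq_lift, map_lift]
    have h3 := hw (F E n) (fun i => T (gen E (n + 1) i))
    refine h3.trans ?_
    simp only [hT0, ← Finset.prod_pow, ← pow_mul]
    rw [Finset.prod_comm]
    refine Finset.prod_congr rfl fun j _ => ?_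
    rw [Finset.prod_pow_eq_pow_sum]
    congr 1
    exact Finset.sum_congr rfl fun i _ => mul_comm _ _
  refine ⟨v, ?_, ?_⟩
  · intro i h0
    have h3 := hvs i
    rw [h0] at h3
    simp [FreeSemigroup.length] at h3
  · intro b B hB hb S _ hS x
    have hb0 : b ≠ 0 := by
      intro h0
      have hne : v 0 ≠ 0 := by
        intro h0
        have h3 := hvs 0
        rw [h0] at h3
        simp [FreeSemigroup.length] at h3
      obtain ⟨j, hj⟩ := Function.ne_iff.1 hne
      have h3 := hb j
      rw [h0] at h3
      simp only [Pi.zero_apply, zero_mul, Finset.sum_const_zero] at h3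
      have h4 : v 0 j ≤ ∑ i, v i j := Finset.single_le_sum (f := fun i => v i j)
        (fun i _ => Nat.zero_le _) (Finset.mem_univ 0)
      have h5 : 0 < v 0 j := Nat.pos_of_ne_zero hj
      have h6 : 0 < N * B * ∑ i, v i j :=
        Nat.mul_pos (Nat.mul_pos (by omega) (by omega)) (by omega)
      omega
    obtain ⟨wb, -, hwb⟩ := h2 (n + 1) b hb0
    have key : val E (n + 1) wb = val E (n + 1) we := by
      apply hT
      apply WithOne.coe_injective
      rw [hev wb b (fun S _ f => hwb S f), hev we (fun _ => N) (fun S _ f => hwe S f)]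
      refine Finset.prod_congr rfl fun j _ => ?_
      rw [hb j, ← Finset.mul_sum]
      have hid := hP (F E n) (F_models n) (gen E n j)
      rcases Nat.eq_zero_or_pos (∑ i, v i j) with h0 | h0
      · rw [h0, mul_zero, mul_zero]
      · rw [mul_assoc, KEY_pow _ N hid _ (Nat.mul_pos hB h0), KEY_pow _ N hid _ h0]
    obtain ⟨R, hR⟩ := F_lift hS (n + 1) x
    have hval : ∀ w, R (val E (n + 1) w) = FreeSemigroup.lift x w := by
      intro w
      rw [val_eq_lift, map_lift]
      simp only [hR]
    have h3 := hval wb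
    rw [key, hval we] at h3
    rw [← hwb S x, ← hwe S x, h3]

end Pool.Agent.H72R3.II
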