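import Pool.Agent.H72R3.II.Stmts

/-! Task LET: letters go to letters. -/

set_option autoImplicit false

namespace Pool.Agent.H72R3.II

private theorem LET_len {m n : ℕ} (v : Fin m → FreeSemigroup (Fin n))
    (w : FreeSemigroup (Fin m)) : w.length ≤ (FreeSemigroup.lift v w).length ∧
      ∀ i, Occ i w → 2 ≤ (v i).length → w.length < (FreeSemigroup.lift v w).length := by
  induction w using FreeSemigroup.recOnMul with
  | ih1 x =>
    rw [FreeSemigroup.lift_of, FreeSemigroup.length_of]
    refine ⟨Nat.succ_le_of_lt (Nat.succ_pos _), ?_⟩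
    intro i hi h2
    have hix : i = x := by
      rcases hi with hi | hi
      · exact hi
      · simp [FreeSemigroup.of] at hi
    rw [← hix]
    omega
  | ih2 x y _ hy =>
    obtain ⟨h1, h2⟩ := hy
    rw [map_mul, FreeSemigroup.length_mul, FreeSemigroup.length_mul, FreeSemigroup.lift_of,
      FreeSemigroup.length_of]
    have hx : 1 ≤ (v x).length := Nat.succ_le_of_lt (Nat.succ_pos _)
    refine ⟨by omega, ?_⟩
    intro i hi h3
    have hi' : i = x ∨ Occ i y := by
      rcases hi with hi | hi
      · exact Or.inl hi
      · right
        have : i ∈ y.head :: y.tail := hi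
        rcases List.mem_cons.1 this with h | h
        · exact Or.inl h
        · exact Or.inr h
    rcases hi' with h | h
    · rw [← h] at hx ⊢
      omega
    · have := h2 i h h3
      omega

theorem LET_ok : S_LET := by
  intro E n hn z δ hz w hw T hT i hi
  have hs := val_surj (E := E) n
  choose v hv using fun k => hs (T (gen E (n + 1) k))
  -- evaluation of `T`
  have hTw : ∀ x : FreeSemigroup (Fin (n + 1)),
      T (val E (n + 1) x) = val E n (FreeSemigroup.lift v x) := by
    intro x
    rw [val_eq_lift, map_lift, map_lift]
    congr 1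
    congr 1
    funext k
    exact (hv k).symm
  -- the embedding and its retraction
  obtain ⟨ι, hι⟩ := F_lift (F_models (E := E) (n + 1)) n
    (fun j => gen E (n + 1) (Fin.castSucc j))
  obtain ⟨ρ, hρ⟩ := F_lift (F_models (E := E) n) (n + 1)
    (fun k => gen E n (if h : k.1 < n then ⟨k.1, h⟩ else ⟨0, hn⟩))
  have hinj : Function.Injective ι := by
    have h1 : ρ.comp ι = MulHom.id (F E n) := by
      apply F_ext
      intro j
      show ρ (ι (gen E n j)) = gen E n j
      rw [hι, hρ]
      congr 1
      have : (Fin.castSucc j).1 < n := j.2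
      rw [dif_pos this]
      rfl
    intro a b hab
    have h2 : ρ (ι a) = ρ (ι b) := by rw [hab]
    have h3 : ∀ c, ρ (ι c) = c := fun c => DFunLike.congr_fun h1 c
    rw [h3, h3] at h2
    exact h2
  have hιval : ∀ x : FreeSemigroup (Fin n), δ < x.length → ι (val E n x) = z := by
    intro x hx
    have h1 : ι (val E n x) = val E (n + 1) (FreeSemigroup.map Fin.castSucc x) := by
      rw [val_eq_lift, map_lift, val_eq_lift]
      unfold FreeSemigroup.map
      rw [map_lift]
      congr 1
      congr 1
      funext k
      rw [hι]
      simp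
    rw [h1]
    apply hz
    rw [FreeSemigroup.length_map]
    exact hx
  by_cases hlen : 2 ≤ (v i).length
  · exfalso
    apply hT
    apply hinj
    obtain ⟨w0, hw0⟩ : ∃ w0 : FreeSemigroup (Fin (n + 1)),
      w0 = ⟨0, List.replicate (δ + 1) 0⟩ := ⟨_, rfl⟩
    have hw0l : δ < w0.length := by
      rw [hw0]
      show δ < (List.replicate (δ + 1) (0 : Fin (n + 1))).length + 1
      rw [List.length_replicate]
      omega
    have e1 : ι (T (val E (n + 1) w)) = z := by
      rw [hTw]
      apply hιval
      have := (LET_len v w).2 i hi hlen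
      omega
    have e2 : ι (T z) = z := by
      have h1 : z = val E (n + 1) w0 := (hz w0 hw0l).symm
      conv_lhs => rw [h1]
      rw [hTw]
      apply hιval
      exact lt_of_lt_of_le hw0l (LET_len v w0).1
    rw [e1, e2]
  · have h1 : (v i).tail = [] := by
      have h2 : (v i).tail.length + 1 < 2 := by
        have h3 : ¬ 2 ≤ (v i).tail.length + 1 := hlen
        omega
      exact List.length_eq_zero_iff.1 (by omega)
    refine ⟨(v i).head, ?_⟩
    rw [← hv i]
    show val E n (v i) = val E n (FreeSemigroup.of (v i).head)
    congr 1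
    apply FreeSemigroup.ext
    · rfl
    · rw [h1]
      rfl

end Pool.Agent.H72R3.II
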