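import Pool.Agent.H72R3.II.Stmts

/-! Task MERGE: all mergings are zero-faithful. -/

set_option autoImplicit false

namespace Pool.Agent.H72R3.II

namespace MERGEx

variable {E : Set (FreeSemigroup ℕ × FreeSemigroup ℕ)} {n : ℕ}

/-- `f` is zero-faithful -/
def ZF (z : F E (n + 1)) (f : Fin (n + 1) → Fin (n + 1)) : Prop :=
  ∀ w, val E (n + 1) (FreeSemigroup.map f w) = z → val E (n + 1) w = z

theorem map_map' {α β γ : Type} (f : α → β) (g : β → γ) (w : FreeSemigroup α) :
    FreeSemigroup.map g (FreeSemigroup.map f w) = FreeSemigroup.map (g ∘ f) w := by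
  have h : (FreeSemigroup.map g).comp (FreeSemigroup.map f) = FreeSemigroup.map (g ∘ f) := by
    apply hom_ext
    intro a
    simp
  exact DFunLike.congr_fun h w

theorem map_id' {α : Type} (w : FreeSemigroup α) : FreeSemigroup.map (id : α → α) w = w := by
  have h : FreeSemigroup.map (id : α → α) = MulHom.id (FreeSemigroup α) := by
    apply hom_ext
    intro a
    simp
  exact DFunLike.congr_fun h w

theorem exists_hom (f : Fin (n + 1) → Fin (n + 1)) : ∃ T : F E (n + 1) →ₙ* F E (n + 1),
    ∀ w, T (val E (n + 1) w) = val E (n + 1) (FreeSemigroup.map f w) := by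
  obtain ⟨T, hT⟩ := F_lift (F_models (E := E) (n + 1)) (n + 1) (fun i => gen E (n + 1) (f i))
  refine ⟨T, fun w => ?_⟩
  have h : T.comp (val E (n + 1)) = (val E (n + 1)).comp (FreeSemigroup.map f) := by
    apply hom_ext
    intro a
    simp only [MulHom.comp_apply, FreeSemigroup.map_of]
    exact hT a
  exact DFunLike.congr_fun h w

theorem long_word (L : ℕ) : ∃ w : FreeSemigroup (Fin (n + 1)), L ≤ w.length := by
  refine ⟨⟨0, List.replicate L 0⟩, ?_⟩
  simp [FreeSemigroup.length]

theorem hom_z {L : ℕ} {z : F E (n + 1)}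
    (hz : ∀ w : FreeSemigroup (Fin (n + 1)), L ≤ w.length → val E (n + 1) w = z)
    (f : Fin (n + 1) → Fin (n + 1)) (T : F E (n + 1) →ₙ* F E (n + 1))
    (hT : ∀ w, T (val E (n + 1) w) = val E (n + 1) (FreeSemigroup.map f w)) : T z = z := by
  obtain ⟨w0, hw0⟩ := long_word (n := n) L
  rw [← hz w0 hw0, hT]
  rw [hz w0 hw0]
  exact hz _ (by rw [FreeSemigroup.length_map]; exact hw0)

theorem zf_comp {z : F E (n + 1)} {f g : Fin (n + 1) → Fin (n + 1)} (hf : ZF z f) (hg : ZF z g) :
    ZF z (f ∘ g) := by
  intro w hw
  rw [← map_map'] at hw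
  exact hg w (hf _ hw)

theorem zf_inv {L : ℕ} {z : F E (n + 1)}
    (hz : ∀ w : FreeSemigroup (Fin (n + 1)), L ≤ w.length → val E (n + 1) w = z)
    {f g : Fin (n + 1) → Fin (n + 1)} (h : g ∘ f = id) : ZF z f := by
  intro w hw
  obtain ⟨T, hT⟩ := exists_hom (E := E) g
  have h1 := hT (FreeSemigroup.map f w)
  rw [hw, hom_z hz g T hT, map_map', h, map_id'] at h1
  exact h1.symm

theorem exists_perm (i j a b : Fin (n + 1)) (hij : i ≠ j) (hab : a ≠ b) :
    ∃ π : Equiv.Perm (Fin (n + 1)), π a = i ∧ π b = j := by
  have h1 : Equiv.swap a i b ≠ i := by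
    intro h
    have h2 : Equiv.swap a i b = Equiv.swap a i a := by rw [h, Equiv.swap_apply_left]
    exact hab ((Equiv.swap a i).injective h2).symm
  refine ⟨Equiv.swap (Equiv.swap a i b) j * Equiv.swap a i, ?_, ?_⟩
  · rw [Equiv.Perm.mul_apply, Equiv.swap_apply_left, Equiv.swap_apply_of_ne_of_ne (Ne.symm h1) hij]
  · rw [Equiv.Perm.mul_apply, Equiv.swap_apply_left]

theorem zf_merge {L : ℕ} {z : F E (n + 1)}
    (hz : ∀ w : FreeSemigroup (Fin (n + 1)), L ≤ w.length → val E (n + 1) w = z)
    (i j : Fin (n + 1)) (hij : i ≠ j) (h : ZF z (Function.update id j i))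
    (a b : Fin (n + 1)) (hab : a ≠ b) : ZF z (Function.update id b a) := by
  obtain ⟨π, h1, h2⟩ := exists_perm i j a b hij hab
  have h3 : (Function.update id b a : Fin (n + 1) → Fin (n + 1)) =
      (π.symm ∘ Function.update id j i) ∘ π := by
    funext x
    by_cases hx : x = b
    · subst hx
      simp only [Function.comp_apply, h2, Function.update_self]
      rw [← h1, Equiv.symm_apply_apply]
    · have hx' : π x ≠ j := by
        rw [← h2]
        exact fun h4 => hx (π.injective h4)
      simp only [Function.comp_apply]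
      rw [Function.update_of_ne hx, Function.update_of_ne hx']
      simp
  rw [h3]
  refine zf_comp (zf_comp ?_ h) ?_
  · exact zf_inv hz (g := π) (by funext x; simp)
  · exact zf_inv hz (g := π.symm) (by funext x; simp)

theorem zf_finset {L : ℕ} {z : F E (n + 1)}
    (hz : ∀ w : FreeSemigroup (Fin (n + 1)), L ≤ w.length → val E (n + 1) w = z)
    (i j : Fin (n + 1)) (hij : i ≠ j) (h : ZF z (Function.update id j i))
    (B : Finset (Fin (n + 1))) : ZF z (fun k => if k ∈ B then 0 else k) := by
  classical
  induction B using Finset.induction_on with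
  | empty =>
    have h1 : (fun k : Fin (n + 1) => if k ∈ (∅ : Finset (Fin (n + 1))) then 0 else k) = id := by
      funext k
      simp
    rw [h1]
    exact zf_inv hz (g := id) rfl
  | insert b B hb ih =>
    by_cases hb0 : b = 0
    · have h1 : (fun k : Fin (n + 1) => if k ∈ insert b B then 0 else k) =
          fun k => if k ∈ B then 0 else k := by
        funext k
        by_cases hk : k ∈ B
        · rw [if_pos hk, if_pos (Finset.mem_insert_of_mem hk)]
        · rw [if_neg hk]
          by_cases hkb : k = b
          · rw [hkb, if_pos (Finset.mem_insert_self _ _), hb0]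
          · rw [if_neg (fun h2 => (Finset.mem_insert.1 h2).elim hkb hk)]
      rw [h1]
      exact ih
    · have h1 : (fun k : Fin (n + 1) => if k ∈ insert b B then 0 else k) =
          (Function.update id b 0) ∘ fun k => if k ∈ B then 0 else k := by
        funext k
        simp only [Function.comp_apply]
        by_cases hk : k ∈ B
        · rw [if_pos hk, if_pos (Finset.mem_insert_of_mem hk), Function.update_of_ne (Ne.symm hb0)]
          rfl
        · rw [if_neg hk]
          by_cases hkb : k = b
          · rw [hkb, if_pos (Finset.mem_insert_self _ _), Function.update_self]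
          · rw [if_neg (fun h2 => (Finset.mem_insert.1 h2).elim hkb hk),
              Function.update_of_ne hkb]
            rfl
      rw [h1]
      exact zf_comp (zf_merge hz i j hij h 0 b (Ne.symm hb0)) ih

end MERGEx

theorem MERGE_ok : S_MERGE := by
  intro E n L z hz i j hij h w hw
  have h1 := MERGEx.zf_finset hz i j hij h Finset.univ
  have h2 : (fun k : Fin (n + 1) => if k ∈ (Finset.univ : Finset (Fin (n + 1))) then 0 else k) =
      fun _ => 0 := by
    funext k
    simp
  rw [h2] at h1
  exact h1 w hw

end Pool.Agent.H72R3.II
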