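import Pool.Agent.H72R3.II.Stmts

set_option autoImplicit false

namespace Pool.Agent.H72R3.II

theorem NA_const {n : ℕ} (w : FreeSemigroup (Fin (n + 1))) :
    FreeSemigroup.map (fun _ => (0 : Fin (n + 1))) w =
      ⟨0, List.replicate (w.length - 1) 0⟩ := by
  induction w using FreeSemigroup.recOnMul with
  | ih1 x => rfl
  | ih2 x y _ hy =>
    rw [map_mul, hy, FreeSemigroup.map_of, FreeSemigroup.length_mul, FreeSemigroup.length_of]
    have h1 : y.length = y.tail.length + 1 := rfl
    have h2 : 1 + y.length - 1 = (y.length - 1) + 1 := by omega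
    rw [h2, List.replicate_succ]
    rfl

theorem NA_head {n m : ℕ} (f : Fin n → Fin m) (w : FreeSemigroup (Fin n)) :
    (FreeSemigroup.map f w).head = f w.head := by
  induction w using FreeSemigroup.recOnMul with
  | ih1 x => rfl
  | ih2 x y _ _ => rw [map_mul]; rfl

theorem NA_hom {E : Set (FreeSemigroup ℕ × FreeSemigroup ℕ)} (n : ℕ) (f : Fin n → Fin n) :
    ∃ H : F E n →ₙ* F E n, (∀ k, H (gen E n k) = gen E n (f k)) ∧
      ∀ w, H (val E n w) = val E n (FreeSemigroup.map f w) := by
  obtain ⟨H, hH⟩ := F_lift (F_models (E := E) n) n (fun k => gen E n (f k))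
  refine ⟨H, hH, fun w => ?_⟩
  have h : H.comp (val E n) = (val E n).comp (FreeSemigroup.map f) := by
    apply hom_ext
    intro a
    exact hH a
  exact DFunLike.congr_fun h w

theorem NA_ok (h1 : S_LET) (h2 : S_MERGE) : S_NA := by
  classical
  intro E n L hn z hL ⟨w₀, hw₀⟩ ⟨T, hT⟩
  -- words of any length
  have hword : ∀ k : ℕ, 1 ≤ k → ∃ y : FreeSemigroup (Fin (n + 1)), y.length = k := by
    intro k hk
    refine ⟨⟨0, List.replicate (k - 1) 0⟩, ?_⟩
    show (List.replicate (k - 1) (0 : Fin (n + 1))).length + 1 = k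
    rw [List.length_replicate]
    omega
  have hlen : ∀ w : FreeSemigroup (Fin (n + 1)), 1 ≤ w.length := fun w => Nat.succ_pos _
  obtain ⟨x₀, hx₀⟩ := hword (L + 1) (by omega)
  have hzx : val E (n + 1) x₀ = z := hL x₀ (by omega)
  -- maximal length
  set P : ℕ → Prop := fun k => ∃ w : FreeSemigroup (Fin (n + 1)), w.length = k ∧
    val E (n + 1) w ≠ z with hP
  have hbd : ∀ k, P k → k ≤ L := by
    rintro k ⟨w, rfl, hw⟩
    by_contra hk
    exact hw (hL w (by omega))
  set δ := Nat.findGreatest P L with hδ
  have hPδ : P δ := Nat.findGreatest_spec (P := P) (hbd _ ⟨w₀, rfl, hw₀⟩) ⟨w₀, rfl, hw₀⟩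
  have hgt : ∀ w : FreeSemigroup (Fin (n + 1)), δ < w.length → val E (n + 1) w = z := by
    intro w hw
    by_contra hne
    have h3 : P w.length := ⟨w, rfl, hne⟩
    have h4 := Nat.le_findGreatest (hbd _ h3) h3
    omega
  obtain ⟨ws, hws, hwsz⟩ := hPδ
  -- homs induced by maps
  have hz : ∀ f : Fin (n + 1) → Fin (n + 1), ∀ w, val E (n + 1) w = z →
      val E (n + 1) (FreeSemigroup.map f w) = z := by
    intro f w hw
    obtain ⟨H, _, hH⟩ := NA_hom (E := E) (n + 1) f
    rw [← hH, hw, ← hzx, hH]
    rw [hzx]
    refine hL _ ?_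
    rw [FreeSemigroup.length_map]
    omega
  -- letters go to letters
  have hletter : ∀ i, ∃ j : Fin n, T (gen E (n + 1) i) = gen E n j := by
    intro i
    set w' := FreeSemigroup.map (Equiv.swap ws.head i) ws with hw'
    have hw'z : val E (n + 1) w' ≠ z := by
      intro h
      apply hwsz
      have h3 := hz (Equiv.swap ws.head i) w' h
      have h4 : FreeSemigroup.map (Equiv.swap ws.head i) w' = ws := by
        have h5 : (FreeSemigroup.map (Equiv.swap ws.head i)).comp
            (FreeSemigroup.map (Equiv.swap ws.head i)) =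
            MulHom.id (FreeSemigroup (Fin (n + 1))) := by
          apply hom_ext
          intro a
          show FreeSemigroup.of (Equiv.swap ws.head i (Equiv.swap ws.head i a)) =
            FreeSemigroup.of a
          rw [Equiv.swap_apply_self]
        exact DFunLike.congr_fun h5 ws
      rw [h4] at h3
      exact h3
    refine h1 E n hn z δ hgt w' ?_ T ?_ i ?_
    · rw [hw', FreeSemigroup.length_map, hws]
    · intro h
      exact hw'z (hT _ h)
    · left
      rw [hw', NA_head, Equiv.swap_apply_left]
  choose f hf using hletter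
  obtain ⟨i, j, hij, hfij⟩ := Fintype.exists_ne_map_eq_of_card_lt f (by simp)
  have hmerge : ∀ w, val E (n + 1) (FreeSemigroup.map (Function.update id j i) w) = z →
      val E (n + 1) w = z := by
    intro w hw
    obtain ⟨H, hH1, hH⟩ := NA_hom (E := E) (n + 1) (Function.update id j i)
    have h3 : T.comp H = T := by
      apply F_ext
      intro k
      show T (H (gen E (n + 1) k)) = T (gen E (n + 1) k)
      rw [hH1, hf, hf]
      by_cases hk : k = j
      · subst hk
        rw [Function.update_self, hfij]
      · rw [Function.update_of_ne hk]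
        rfl
    apply hT
    rw [← hw, ← hH]
    exact (DFunLike.congr_fun h3 (val E (n + 1) w)).symm
  have hc := h2 E n L z hL i j hij hmerge
  refine ⟨δ, by rw [← hws]; exact hlen ws, fun w => ⟨fun hw => ?_, hgt w⟩⟩
  by_contra hlt
  push Not at hlt
  apply hwsz
  apply hc
  have hcw := hz (fun _ => 0) w hw
  rcases hlt.lt_or_eq with hlt' | heq
  · obtain ⟨y, hy⟩ := hword (δ - w.length) (by omega)
    have h3 : FreeSemigroup.map (fun _ => (0 : Fin (n + 1))) ws =
        FreeSemigroup.map (fun _ => (0 : Fin (n + 1))) w *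
          FreeSemigroup.map (fun _ => (0 : Fin (n + 1))) y := by
      rw [← map_mul, NA_const, NA_const]
      congr 2
      rw [FreeSemigroup.length_mul, hws, hy]
      omega
    rw [h3, map_mul, hcw, ← hzx, ← map_mul]
    rw [hzx]
    refine hL _ ?_
    rw [FreeSemigroup.length_mul]
    omega
  · rw [NA_const, hws, ← heq, ← NA_const]
    exact hcw

end Pool.Agent.H72R3.II
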