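import Pool.Agent.H72R3.II.Stmts

set_option autoImplicit false

namespace Pool.Agent.H72R3.II

theorem NAC_length {A : Type} (a : A) : ∀ k : ℕ, (pow1 (FreeSemigroup.of a) k).length = k + 1
  | 0 => rfl
  | k + 1 => by
    have h := NAC_length a k
    change (pow1 (FreeSemigroup.of a) k * FreeSemigroup.of a).length = _
    rw [FreeSemigroup.length_mul, h]
    rfl

theorem NAC_lift {S : Type} [Semigroup S] (a : S) :
    ∀ k : ℕ, FreeSemigroup.lift id (pow1 (FreeSemigroup.of a) k) = pow1 a k
  | 0 => by simp [pow1]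
  | k + 1 => by
    have h := NAC_lift a k
    change FreeSemigroup.lift id (pow1 (FreeSemigroup.of a) k * FreeSemigroup.of a) = pow1 a k * a
    rw [map_mul, h]
    simp

theorem NAC_val : ∀ k : ℕ, (pow1 (Multiplicative.ofAdd (1 : ℕ)) k) = Multiplicative.ofAdd (k + 1)
  | 0 => rfl
  | k + 1 => by
    have h := NAC_val k
    change pow1 (Multiplicative.ofAdd (1 : ℕ)) k * Multiplicative.ofAdd 1 = _
    rw [h]
    rfl

/-- no nilpotent variety contains all commutative semigroups -/
theorem NAC_ok (E : Set (FreeSemigroup ℕ × FreeSemigroup ℕ)) (c : ℕ) (h : Nilp E c) :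
    NotAllComm E := by
  refine ⟨Multiplicative ℕ, inferInstance, fun hm => ?_⟩
  have h1 := h (Multiplicative ℕ) hm (pow1 (FreeSemigroup.of (Multiplicative.ofAdd (1 : ℕ))) c)
    (pow1 (FreeSemigroup.of (Multiplicative.ofAdd (1 : ℕ))) (c + 1))
    (by rw [NAC_length]; omega) (by rw [NAC_length]; omega)
  rw [NAC_lift, NAC_lift, NAC_val, NAC_val] at h1
  have h2 := Multiplicative.ofAdd.injective h1
  omega

end Pool.Agent.H72R3.II
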