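import Pool.Agent.H72R3.II.Stmts

set_option autoImplicit false

namespace Pool.Agent.H72R3.II

theorem NE_occ {n : ℕ} {S : Type} [Semigroup S] (a : Fin n → S) (z : S)
    (hz : ∀ x, z * x = z ∧ x * z = z) (j : Fin n) (hj : a j = z) (w : FreeSemigroup (Fin n)) :
    Occ j w → FreeSemigroup.lift a w = z := by
  induction w using FreeSemigroup.recOnMul with
  | ih1 i =>
    intro h
    rw [FreeSemigroup.lift_of]
    rcases h with h | h
    · have : j = i := h
      rw [← this, hj]
    · exact absurd h (by simp [FreeSemigroup.of])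
  | ih2 i w _ ih =>
    intro h
    rw [map_mul, FreeSemigroup.lift_of]
    have h' : j = i ∨ Occ j w := by
      rcases h with h | h
      · left
        rw [FreeSemigroup.head_mul] at h
        exact h
      · right
        rw [FreeSemigroup.tail_mul] at h
        have h2 : j ∈ ([] : List (Fin n)) ++ w.head :: w.tail := h
        rw [List.nil_append, List.mem_cons] at h2
        exact h2
    rcases h' with h' | h'
    · rw [← h', hj]
      exact (hz _).1
    · rw [ih h']
      exact (hz _).2

theorem NE_word (n δ : ℕ) (h : n + 1 ≤ δ) : ∃ w : FreeSemigroup (Fin (n + 1)),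
    w.length = δ ∧ ∀ i, Occ i w := by
  refine ⟨⟨0, (List.range (δ - 1)).map
    (fun k => if h : k + 1 < n + 1 then (⟨k + 1, h⟩ : Fin (n + 1)) else 0)⟩, ?_, ?_⟩
  · simp only [FreeSemigroup.length, List.length_map, List.length_range]
    omega
  · intro i
    by_cases hi : i = 0
    · left
      exact hi
    · right
      have hi' : (i : ℕ) ≠ 0 := fun h => hi (Fin.ext h)
      have hil := i.2
      refine List.mem_map.2 ⟨(i : ℕ) - 1, List.mem_range.2 (by omega), ?_⟩
      have h1 : (i : ℕ) - 1 + 1 < n + 1 := by omega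
      rw [dif_pos h1]
      apply Fin.ext
      show (i : ℕ) - 1 + 1 = i
      omega

theorem NE_ok (h1 : S_LET) : S_NE := by
  intro E n δ hn hδ z hz hiso
  by_contra hcon
  have hle : n + 1 ≤ δ := by omega
  obtain ⟨g0, hg0l, hg0⟩ := NE_word n δ hle
  have hgz : val E (n + 1) g0 ≠ z := by
    intro h
    have := (hz g0).1 h
    omega
  obtain ⟨T, hT⟩ := hiso (val E (n + 1) g0)
  have hTz : T (val E (n + 1) g0) ≠ T z := fun h => hgz (hT z h.symm).symm
  have hlet : ∀ i, ∃ j : Fin n, T (gen E (n + 1) i) = gen E n j := fun i =>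
    h1 E n hn z δ (fun w hw => (hz w).2 hw) g0 hg0l T hTz i (hg0 i)
  choose f hf using hlet
  obtain ⟨i, j, hij, hfij⟩ : ∃ i j : Fin (n + 1), i ≠ j ∧ f i = f j := by
    have hc : Fintype.card (Fin n) < Fintype.card (Fin (n + 1)) := by simp
    obtain ⟨i, j, hij, hfij⟩ := Fintype.exists_ne_map_eq_of_card_lt f hc
    exact ⟨i, j, hij, hfij⟩
  obtain ⟨H, hH⟩ := F_lift (F_models (E := E) (n + 1)) (n + 1)
    (fun k => gen E (n + 1) (if k = j then i else k))
  obtain ⟨K, hK⟩ := F_lift (F_models (E := E) (n + 1)) (n + 1)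
    (fun k => if k = j then z else gen E (n + 1) k)
  have hTH : T.comp H = T := by
    apply F_ext
    intro k
    show T (H (gen E (n + 1) k)) = T (gen E (n + 1) k)
    rw [hH]
    by_cases hk : k = j
    · rw [if_pos hk, hk, hf, hf, hfij]
    · rw [if_neg hk]
  have hHg : H (val E (n + 1) g0) = val E (n + 1) g0 := by
    apply hT
    exact DFunLike.congr_fun hTH (val E (n + 1) g0)
  have hKH : K.comp H = H := by
    apply F_ext
    intro k
    show K (H (gen E (n + 1) k)) = H (gen E (n + 1) k)
    rw [hH]
    by_cases hk : k = j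
    · rw [if_pos hk, hK, if_neg hij]
    · rw [if_neg hk, hK, if_neg hk]
  have hKg : K (val E (n + 1) g0) = val E (n + 1) g0 := by
    have h2 : K (H (val E (n + 1) g0)) = H (val E (n + 1) g0) :=
      DFunLike.congr_fun hKH (val E (n + 1) g0)
    rw [hHg] at h2
    exact h2
  have habs : ∀ x : F E (n + 1), z * x = z ∧ x * z = z := by
    intro x
    obtain ⟨w, rfl⟩ := val_surj (n + 1) x
    have hz1 : z = val E (n + 1) (g0 * FreeSemigroup.of 0) := by
      refine ((hz _).2 ?_).symm
      rw [FreeSemigroup.length_mul, FreeSemigroup.length_of]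
      omega
    constructor
    · conv_lhs => rw [hz1]
      rw [← map_mul]
      refine (hz _).2 ?_
      rw [FreeSemigroup.length_mul, FreeSemigroup.length_mul, FreeSemigroup.length_of]
      omega
    · conv_lhs => rw [hz1]
      rw [← map_mul]
      refine (hz _).2 ?_
      rw [FreeSemigroup.length_mul, FreeSemigroup.length_mul, FreeSemigroup.length_of]
      omega
  have hKz : K (val E (n + 1) g0) = z := by
    rw [val_eq_lift, map_lift]
    refine NE_occ _ z habs j ?_ g0 (hg0 j)
    show K (gen E (n + 1) j) = z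
    rw [hK, if_pos rfl]
  exact hgz (hKg.symm.trans hKz)

end Pool.Agent.H72R3.II
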