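import Pool.Agent.H72R3.II.Stmts

set_option autoImplicit false

namespace Pool.Agent.H72R3.II

variable {E : Set (FreeSemigroup ℕ × FreeSemigroup ℕ)}

theorem NF_words {S : Type} {n : ℕ} (w : FreeSemigroup S) (h : w.tail.length ≤ n) :
    ∃ (f : Fin (n + 1) → S) (v : FreeSemigroup (Fin (n + 1))), FreeSemigroup.map f v = w := by
  classical
  obtain ⟨hd, tl⟩ := w
  simp only at h
  have : Nonempty (Fin (n + 1)) := ⟨0⟩
  let f : Fin (n + 1) → S := Fin.cons hd (fun i : Fin n => tl.getD i hd)
  refine ⟨f, FreeSemigroup.map (Function.invFun f) ⟨hd, tl⟩, ?_⟩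
  have h0 : f (Function.invFun f hd) = hd := Function.invFun_eq ⟨0, rfl⟩
  have h1 : ∀ a ∈ tl, f (Function.invFun f a) = a := by
    intro a ha
    refine Function.invFun_eq ?_
    obtain ⟨i, hi, hia⟩ := List.getElem_of_mem ha
    refine ⟨(⟨i, lt_of_lt_of_le hi h⟩ : Fin n).succ, ?_⟩
    show (Fin.cons hd (fun i : Fin n => tl.getD i hd) : Fin (n + 1) → S) _ = a
    rw [Fin.cons_succ]
    simp [hi, hia]
  have h2 : (tl.map (Function.invFun f)).map f = tl := by
    rw [List.map_map]
    conv_rhs => rw [← List.map_id tl]
    exact List.map_congr_left (fun a ha => h1 a ha)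
  have e1 : ∀ (A B : Type) (g : A → B) (a : A) (l : List A),
      FreeSemigroup.map g (⟨a, l⟩ : FreeSemigroup A) = ⟨g a, l.map g⟩ := by
    intro A B g a l
    induction l using List.reverseRecOn with
    | nil => rfl
    | append_singleton l b ih =>
      have h3 : (⟨a, l ++ [b]⟩ : FreeSemigroup A) = ⟨a, l⟩ * FreeSemigroup.of b := rfl
      rw [h3, map_mul, ih, FreeSemigroup.map_of, List.map_append]
      rfl
  rw [e1, e1, h0, h2]

theorem NF_lift_map {A S : Type} [Semigroup S] (f : A → S) (v : FreeSemigroup A) :
    FreeSemigroup.lift id (FreeSemigroup.map f v) = FreeSemigroup.lift f v := by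
  have : (FreeSemigroup.lift (id : S → S)).comp (FreeSemigroup.map f) = FreeSemigroup.lift f := by
    apply hom_ext
    intro a
    simp
  rw [← this]
  rfl

theorem NF_T_val {S : Type} [Semigroup S] {n : ℕ} (T : F E n →ₙ* S) (v : FreeSemigroup (Fin n)) :
    T (val E n v) = FreeSemigroup.lift (fun i => T (gen E n i)) v := by
  have : T.comp (val E n) = FreeSemigroup.lift (fun i => T (gen E n i)) := by
    apply hom_ext
    intro a
    simp [gen]
  rw [← this]
  rfl

theorem NF_pow1_map {S S' : Type} [Semigroup S] [Semigroup S'] (T : S →ₙ* S') (a : S) (k : ℕ) :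
    T (pow1 a k) = pow1 (T a) k := by
  induction k with
  | zero => rfl
  | succ k ih => rw [pow1, map_mul, ih, pow1]

theorem NF_pow1_len {A : Type} (a : A) (k : ℕ) : (pow1 (FreeSemigroup.of a) k).length = k + 1 := by
  induction k with
  | zero => rfl
  | succ k ih => rw [pow1, FreeSemigroup.length_mul, ih]; rfl

theorem NF_pow1_gen {n : ℕ} (i : Fin n) (k : ℕ) :
    pow1 (gen E n i) k = val E n (pow1 (FreeSemigroup.of i) k) := by
  rw [NF_pow1_map]; rfl

theorem NF_ok : S_NF := by
  intro E n δ hn hδ z hz hδn
  right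
  obtain ⟨c, rfl⟩ : ∃ c, δ = c + 1 := ⟨δ - 1, by omega⟩
  refine ⟨c, ?_, F E (n + 1), inferInstance, F_models (n + 1), gen E (n + 1) 0, ?_⟩
  · intro S _ hS
    -- `T z` is a power
    have hTz : ∀ (T : F E (n + 1) →ₙ* S) (i : Fin (n + 1)), T z = pow1 (T (gen E (n + 1) i)) (c + 1) := by
      intro T i
      have h1 : val E (n + 1) (pow1 (FreeSemigroup.of i) (c + 1)) = z := by
        rw [hz, NF_pow1_len]; omega
      rw [← h1, ← NF_pow1_gen, NF_pow1_map]
    -- independence
    have hTT : ∀ T T' : F E (n + 1) →ₙ* S, T z = T' z := by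
      intro T T'
      let i1 : Fin (n + 1) := ⟨1, by omega⟩
      obtain ⟨T'', hT''⟩ := F_lift hS (n + 1)
        (fun i => if i = 0 then T (gen E (n + 1) 0) else T' (gen E (n + 1) i1))
      have h0 : T'' (gen E (n + 1) 0) = T (gen E (n + 1) 0) := by rw [hT'']; simp
      have h1 : T'' (gen E (n + 1) i1) = T' (gen E (n + 1) i1) := by
        rw [hT'', if_neg]
        intro h
        have := congrArg Fin.val h
        simp [i1] at this
      rw [hTz T 0, ← h0, ← hTz T'' 0, hTz T'' i1, h1, ← hTz T' i1]
    -- absorption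
    have habs : ∀ (T : F E (n + 1) →ₙ* S) (a : S), T z * a = T z := by
      intro T a
      let i1 : Fin (n + 1) := ⟨1, by omega⟩
      obtain ⟨T', hT'⟩ := F_lift hS (n + 1) (fun _ => a)
      rw [hTT T T']
      have h1 : z * gen E (n + 1) i1 = z := by
        have h2 : val E (n + 1) (pow1 (FreeSemigroup.of 0) (c + 1)) = z := by
          rw [hz, NF_pow1_len]; omega
        have h3 : val E (n + 1) (pow1 (FreeSemigroup.of 0) (c + 1) * FreeSemigroup.of i1) = z := by
          rw [hz, FreeSemigroup.length_mul, NF_pow1_len]; omega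
        rw [map_mul, h2] at h3
        exact h3
      calc T' z * a = T' z * T' (gen E (n + 1) i1) := by rw [hT']
        _ = T' (z * gen E (n + 1) i1) := (map_mul T' _ _).symm
        _ = T' z := by rw [h1]
    -- values of long words
    have hval : ∀ (T : F E (n + 1) →ₙ* S) (w : FreeSemigroup S), c + 2 ≤ w.length →
        FreeSemigroup.lift id w = T z := by
      intro T w
      obtain ⟨hd, tl⟩ := w
      induction tl using List.reverseRecOn with
      | nil =>
        intro h
        simp [FreeSemigroup.length] at h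
      | append_singleton l a ih =>
        intro h
        have hlen : (⟨hd, l ++ [a]⟩ : FreeSemigroup S).length = l.length + 2 := by
          simp [FreeSemigroup.length]
        rw [hlen] at h
        by_cases hl : l.length = c
        · obtain ⟨f, v, hv⟩ := NF_words (n := n) (⟨hd, l ++ [a]⟩ : FreeSemigroup S) (by
            simp; omega)
          have hvl : v.length = c + 2 := by
            have := congrArg FreeSemigroup.length hv
            rw [FreeSemigroup.length_map, hlen] at this
            omega
          obtain ⟨T', hT'⟩ := F_lift hS (n + 1) f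
          rw [← hv, NF_lift_map]
          have h1 : val E (n + 1) v = z := by rw [hz]; omega
          have h2 := NF_T_val T' v
          rw [h1] at h2
          have h3 : (fun i => T' (gen E (n + 1) i)) = f := funext hT'
          rw [h3] at h2
          rw [← h2]
          exact hTT T' T
        · have h1 : FreeSemigroup.lift id (⟨hd, l⟩ : FreeSemigroup S) = T z := by
            apply ih
            simp [FreeSemigroup.length]
            omega
          have h2 : (⟨hd, l ++ [a]⟩ : FreeSemigroup S) = ⟨hd, l⟩ * FreeSemigroup.of a := by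
            rfl
          rw [h2, map_mul, h1, FreeSemigroup.lift_of]
          exact habs T a
    intro w w' hw hw'
    obtain ⟨T, -⟩ := F_lift hS (n + 1) (fun _ => w.head)
    rw [hval T w hw, hval T w' hw']
  · rw [NF_pow1_gen, NF_pow1_gen]
    have h1 : val E (n + 1) (pow1 (FreeSemigroup.of 0) (c + 1)) = z := by
      rw [hz, NF_pow1_len]; omega
    rw [h1]
    intro h
    rw [hz, NF_pow1_len] at h
    omega

theorem N0_ok : S_N0 := by
  intro E n hn z hz S _ hS w w' _ _
  let i1 : Fin (n + 1) := ⟨1, by omega⟩
  obtain ⟨T, hT⟩ := F_lift hS (n + 1)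
    (fun i => if i = 0 then FreeSemigroup.lift id w else FreeSemigroup.lift id w')
  have h0 : T (gen E (n + 1) 0) = FreeSemigroup.lift id w := by rw [hT]; simp
  have h1 : T (gen E (n + 1) i1) = FreeSemigroup.lift id w' := by
    rw [hT, if_neg]
    intro h
    have := congrArg Fin.val h
    simp [i1] at this
  rw [← h0, ← h1]
  congr 1
  exact (hz _).trans (hz _).symm

end Pool.Agent.H72R3.II
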