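import Pool.Agent.H72R3.II.Stmts

set_option autoImplicit false

namespace Pool.Agent.H72R3.II

theorem PA_pow {M : Type} [Monoid M] {a : M} (h : a * a = a) {k : ℕ} (hk : 1 ≤ k) : a ^ k = a := by
  obtain ⟨m, rfl⟩ : ∃ m, k = m + 1 := ⟨k - 1, by omega⟩
  induction m with
  | zero => simp
  | succ m ih => rw [pow_succ, ih (by omega), h]

theorem PA_half (h : S_DEP) (E : Set (FreeSemigroup ℕ × FreeSemigroup ℕ)) (n N : ℕ)
    (v : Fin (n + 1) → Fin n → ℕ) (hN : PowIdem E N) (hC : Control E n N v)
    (S : Type) [CommSemigroup S] (hS : Models S E) (x y : S) :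
    (x : WithOne S) ^ N = (y : WithOne S) ^ N * (x : WithOne S) ^ N := by
  classical
  obtain ⟨hv, hctl⟩ := hC
  obtain ⟨c, -, hc0, -, ⟨i1, hi1⟩, ⟨i2, hi2⟩⟩ := h n v hv
  obtain ⟨i0, -, hmin⟩ := Finset.exists_min_image (Finset.univ : Finset (Fin (n + 1))) c
    ⟨i1, Finset.mem_univ _⟩
  obtain ⟨C, hCd⟩ : ∃ C : ℤ, C = -c i0 := ⟨_, rfl⟩
  have hCpos : 0 < C := by
    have := hmin i2 (Finset.mem_univ _)
    omega
  have hnn : ∀ i, 0 ≤ C + c i := fun i => by
    have := hmin i (Finset.mem_univ _)
    omega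
  have hctl' := hctl (fun i => N * (C + c i).toNat) C.toNat (by omega) (by
    intro j
    have h1 : ((∑ i, N * (C + c i).toNat * v i j : ℕ) : ℤ) =
        ((N * C.toNat * ∑ i, v i j : ℕ) : ℤ) := by
      push_cast
      have h2 : ∀ i, (((C + c i).toNat : ℕ) : ℤ) = C + c i := fun i => Int.toNat_of_nonneg (hnn i)
      have h3 : ((C.toNat : ℕ) : ℤ) = C := Int.toNat_of_nonneg hCpos.le
      simp only [Int.toNat_of_nonneg (hnn _), Int.toNat_of_nonneg hCpos.le]
      have h4 : ∀ i, (N : ℤ) * (C + c i) * (v i j : ℤ) =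
          (N : ℤ) * C * (v i j : ℤ) + (N : ℤ) * (c i * (v i j : ℤ)) := fun i => by ring
      simp only [h4]
      rw [Finset.sum_add_distrib, ← Finset.mul_sum, ← Finset.mul_sum, hc0 j, mul_zero, add_zero]
    exact_mod_cast h1) S hS (fun i => if C + c i = 0 then y else x)
  have hx := hN S hS x
  have hy := hN S hS y
  have hI : 1 ≤ ((Finset.univ : Finset (Fin (n + 1))).filter (fun i => ¬ C + c i = 0)).card := by
    apply Finset.card_pos.2
    refine ⟨i1, ?_⟩
    rw [Finset.mem_filter]
    exact ⟨Finset.mem_univ _, by omega⟩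
  have hJ : 1 ≤ ((Finset.univ : Finset (Fin (n + 1))).filter (fun i => C + c i = 0)).card := by
    apply Finset.card_pos.2
    refine ⟨i0, ?_⟩
    rw [Finset.mem_filter]
    exact ⟨Finset.mem_univ _, by omega⟩
  have hL : (∏ i, (((if C + c i = 0 then y else x : S)) : WithOne S) ^ (N * (C + c i).toNat)) =
      (x : WithOne S) ^ N := by
    have e1 : ∀ i, (((if C + c i = 0 then y else x : S)) : WithOne S) ^ (N * (C + c i).toNat) =
        if C + c i = 0 then 1 else (x : WithOne S) ^ N := by
      intro i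
      by_cases hi : C + c i = 0
      · rw [if_pos hi, if_pos hi, hi]
        simp
      · rw [if_neg hi, if_neg hi, pow_mul]
        apply PA_pow hx
        have := hnn i
        omega
    rw [Finset.prod_congr rfl (fun i _ => e1 i), Finset.prod_ite, Finset.prod_const_one, one_mul,
      Finset.prod_const]
    exact PA_pow hx hI
  have hR : (∏ i, (((if C + c i = 0 then y else x : S)) : WithOne S) ^ N) =
      (y : WithOne S) ^ N * (x : WithOne S) ^ N := by
    have e1 : ∀ i, (((if C + c i = 0 then y else x : S)) : WithOne S) ^ N =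
        if C + c i = 0 then (y : WithOne S) ^ N else (x : WithOne S) ^ N := by
      intro i
      split_ifs <;> rfl
    rw [Finset.prod_congr rfl (fun i _ => e1 i), Finset.prod_ite, Finset.prod_const,
      Finset.prod_const, PA_pow hx hI, PA_pow hy hJ]
  exact hL.symm.trans (hctl'.trans hR)

theorem PA_ok (h : S_DEP) : S_PA := by
  intro E n N v _ _ hN hC S _ hS x y
  have h1 := PA_half h E n N v hN hC S hS x y
  have h2 := PA_half h E n N v hN hC S hS y x
  rw [h1, mul_comm]
  exact h2.symm

end Pool.Agent.H72R3.II
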