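import Pool.Agent.H72R3.II.Stmts

/-! Task PB of helper72 (by helper135): no groups. -/

set_option autoImplicit false

namespace Pool.Agent.H72R3.II

private lemma PB_pow_coe {S : Type} [CommSemigroup S] (x : S) :
    ∀ N : ℕ, 1 ≤ N → ∃ p : S, (p : WithOne S) = (x : WithOne S) ^ N := by
  intro N hN
  induction N, hN using Nat.le_induction with
  | base => exact ⟨x, by rw [pow_one]⟩
  | succ k _ ih =>
    obtain ⟨p, hp⟩ := ih
    refine ⟨p * x, ?_⟩
    rw [pow_succ, ← hp, WithOne.coe_mul]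

private lemma PB_idem {M : Type} [CommMonoid M] (P : M) (h : P * P = P) :
    ∀ k : ℕ, 1 ≤ k → P ^ k = P := by
  intro k hk
  induction k, hk using Nat.le_induction with
  | base => exact pow_one P
  | succ k _ ih => rw [pow_succ, ih, h]

private lemma PB_iter {M : Type} [CommMonoid M] (P Y : M) (h : P * Y = P) :
    ∀ k : ℕ, P * Y ^ k = P := by
  intro k
  induction k with
  | zero => rw [pow_zero, mul_one]
  | succ k ih => rw [pow_succ, ← mul_assoc, ih, h]

private def PB_H {M : Type} [CommMonoid M] (P X : M) (N : ℕ) (hN : 1 ≤ N) : AddSubgroup ℤ where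
  carrier := {a | ∃ k : ℕ, P * X ^ k = P ∧ (N : ℤ) ∣ ((k : ℤ) - a)}
  zero_mem' := ⟨0, by rw [pow_zero, mul_one], by simp⟩
  add_mem' := by
    rintro a b ⟨k, hk, hka⟩ ⟨l, hl, hlb⟩
    refine ⟨k + l, ?_, ?_⟩
    · rw [pow_add, ← mul_assoc, hk, hl]
    · have e : (((k + l : ℕ) : ℤ) - (a + b)) = ((k : ℤ) - a) + ((l : ℤ) - b) := by
        push_cast; ring
      rw [e]
      exact dvd_add hka hlb
  neg_mem' := by
    rintro a ⟨k, hk, hka⟩
    refine ⟨k * (N - 1), ?_, ?_⟩
    · rw [pow_mul]
      exact PB_iter P (X ^ k) hk _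
    · have e : (((k * (N - 1) : ℕ) : ℤ) - (-a)) = (N : ℤ) * k - ((k : ℤ) - a) := by
        push_cast [Nat.cast_sub hN]; ring
      rw [e]
      exact dvd_sub (dvd_mul_right _ _) hka

theorem PB_ok (h : S_DEP) : S_PB := by
  intro E n N v hn hN hPI hC S _ hM x
  obtain ⟨hv0, hctl⟩ := hC
  obtain ⟨c, lam, hc, hlam, -, -⟩ := h n v hv0
  have hPP : (x : WithOne S) ^ N * (x : WithOne S) ^ N = (x : WithOne S) ^ N := hPI S hM x
  obtain ⟨p, hp⟩ := PB_pow_coe x N hN
  have hid := PB_idem ((x : WithOne S) ^ N) hPP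
  have hPXN : ∀ t : ℕ, (x : WithOne S) ^ N * (x : WithOne S) ^ (N * t) = (x : WithOne S) ^ N := by
    intro t
    rw [pow_mul]
    exact PB_iter _ _ hPP t
  have key : ∀ i, c i ∈ PB_H ((x : WithOne S) ^ N) (x : WithOne S) N hN := by
    intro i
    have hB : ∀ j, ((c j).natAbs : ℤ) ≤ ((∑ j, (c j).natAbs : ℕ) : ℤ) := by
      intro j
      exact_mod_cast Finset.single_le_sum (f := fun j => (c j).natAbs)
        (fun _ _ => Nat.zero_le _) (Finset.mem_univ j)
    set B : ℕ := 1 + ∑ j, (c j).natAbs with hBdef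
    have hpos : ∀ j, 1 ≤ (N : ℤ) * B + c j := by
      intro j
      have h1 := hB j
      have h2 : -((c j).natAbs : ℤ) ≤ c j := by omega
      have h3 : (B : ℤ) ≤ (N : ℤ) * B := by
        have hN' : (1 : ℤ) ≤ N := by exact_mod_cast hN
        nlinarith [Int.natCast_nonneg B]
      have h4 : (B : ℤ) = 1 + ((∑ j, (c j).natAbs : ℕ) : ℤ) := by
        rw [hBdef]; push_cast; ring
      linarith
    have hb : ∀ j, ((((N : ℤ) * B + c j).toNat : ℕ) : ℤ) = (N : ℤ) * B + c j := by
      intro j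
      exact Int.toNat_of_nonneg (by linarith [hpos j])
    have hb1 : ∀ j, 1 ≤ ((N : ℤ) * B + c j).toNat := by
      intro j
      have := hpos j
      omega
    have hcond : ∀ j, ∑ i, ((N : ℤ) * B + c i).toNat * v i j = N * B * ∑ i, v i j := by
      intro j
      have e : ((∑ i, ((N : ℤ) * B + c i).toNat * v i j : ℕ) : ℤ) =
          ((N * B * ∑ i, v i j : ℕ) : ℤ) := by
        push_cast [hb]
        simp only [hb, add_mul, Finset.sum_add_distrib, hc j, add_zero, Finset.mul_sum]
      exact_mod_cast e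
    have hmain := hctl (fun j => ((N : ℤ) * B + c j).toNat) B (by omega) hcond S hM
      (fun k => if k = i then x else p)
    rw [← Finset.mul_prod_erase _ _ (Finset.mem_univ i),
      ← Finset.mul_prod_erase _ _ (Finset.mem_univ i)] at hmain
    have hcard : (Finset.univ.erase i : Finset (Fin (n + 1))).card = n := by
      rw [Finset.card_erase_of_mem (Finset.mem_univ i), Finset.card_univ, Fintype.card_fin]
      omega
    have e1 : ∏ k ∈ Finset.univ.erase i,
        (((if k = i then x else p : S)) : WithOne S) ^ ((N : ℤ) * B + c k).toNat =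
        (x : WithOne S) ^ N := by
      rw [Finset.prod_congr rfl (g := fun _ => (x : WithOne S) ^ N) (fun k hk => by
        rw [if_neg (Finset.ne_of_mem_erase hk), hp, hid _ (hb1 k)]), Finset.prod_const, hcard,
        hid n hn]
    have e2 : ∏ k ∈ Finset.univ.erase i,
        (((if k = i then x else p : S)) : WithOne S) ^ N = (x : WithOne S) ^ N := by
      rw [Finset.prod_congr rfl (g := fun _ => (x : WithOne S) ^ N) (fun k hk => by
        rw [if_neg (Finset.ne_of_mem_erase hk), hp, hid _ hN]), Finset.prod_const, hcard,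
        hid n hn]
    rw [e1, e2, if_pos rfl, hPP] at hmain
    refine ⟨((N : ℤ) * B + c i).toNat, ?_, ?_⟩
    · rw [mul_comm]; exact hmain
    · rw [hb i]
      exact ⟨B, by ring⟩
  have h1 : (1 : ℤ) ∈ PB_H ((x : WithOne S) ^ N) (x : WithOne S) N hN := by
    rw [← hlam]
    refine AddSubgroup.sum_mem _ (fun i _ => ?_)
    have := AddSubgroup.zsmul_mem _ (key i) (lam i)
    simpa [smul_eq_mul] using this
  obtain ⟨k, hk, t, ht⟩ := h1
  have hN' : (1 : ℤ) ≤ N := by exact_mod_cast hN
  have ht0 : 0 ≤ t + 1 := by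
    by_contra hneg
    have h2 : t ≤ -2 := by omega
    have h3 : (N : ℤ) * t ≤ (N : ℤ) * (-2) := mul_le_mul_of_nonneg_left h2 (by omega)
    omega
  obtain ⟨t', ht'⟩ := Int.eq_ofNat_of_zero_le ht0
  have hkN : k + N = N * t' + 1 := by
    have e : ((k + N : ℕ) : ℤ) = ((N * t' + 1 : ℕ) : ℤ) := by
      push_cast
      rw [← ht']
      linarith
    exact_mod_cast e
  have e1 : (x : WithOne S) ^ N * (x : WithOne S) ^ (k + N) = (x : WithOne S) ^ N := by
    rw [pow_add, ← mul_assoc, hk, hPP]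
  have e2 : (x : WithOne S) ^ N * (x : WithOne S) ^ (N * t' + 1) =
      (x : WithOne S) ^ N * (x : WithOne S) := by
    rw [pow_succ, ← mul_assoc, hPXN]
  rw [hkN, e2] at e1
  exact e1

end Pool.Agent.H72R3.II
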