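import Pool.Agent.H72R3.II.Stmts

/-! PC: long words are equal -/

set_option autoImplicit false

namespace Pool.Agent.H72R3.II

theorem PC_pow1 {S : Type} [CommSemigroup S] (a : S) (k : ℕ) :
    ((pow1 a k : S) : WithOne S) = (a : WithOne S) ^ (k + 1) := by
  induction k with
  | zero => rw [zero_add, pow_one]; rfl
  | succ k ih =>
    rw [pow_succ, ← ih]
    exact WithOne.coe_mul _ _

theorem PC_aux {S : Type} [CommSemigroup S] {ι : Type} [Fintype ι] [DecidableEq ι] (N : ℕ)
    (h1 : ∀ x y : S, (x : WithOne S) ^ N = (y : WithOne S) ^ N)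
    (h2 : ∀ x : S, (x : WithOne S) ^ N * (x : WithOne S) = (x : WithOne S) ^ N)
    (a : S) (f : ι → S) (v : ι → ℕ) (j0 : ι) (hj : N ≤ v j0) :
    ∏ j, ((f j : S) : WithOne S) ^ v j = (a : WithOne S) ^ N := by
  have habs : ∀ (y : S) (k : ℕ),
      (a : WithOne S) ^ N * (y : WithOne S) ^ k = (a : WithOne S) ^ N := by
    intro y k
    induction k with
    | zero => rw [pow_zero, mul_one]
    | succ k ih => rw [pow_succ, ← mul_assoc, ih, h1 a y, h2 y]
  have habs2 : ∀ s : Finset ι, (a : WithOne S) ^ N * ∏ j ∈ s, ((f j : S) : WithOne S) ^ v j =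
      (a : WithOne S) ^ N := by
    intro s
    induction s using Finset.induction_on with
    | empty => rw [Finset.prod_empty, mul_one]
    | insert j s hjs ih => rw [Finset.prod_insert hjs, ← mul_assoc, habs, ih]
  rw [← Finset.mul_prod_erase Finset.univ _ (Finset.mem_univ j0)]
  have e : v j0 = N + (v j0 - N) := by omega
  rw [e, pow_add, h1 (f j0) a, habs, habs2]

theorem PC_ok (h : S_REP) : S_PC := by
  intro E n N hC hN h1 h2
  letI inst : CommSemigroup (F E (n + 1)) :=
    { (inferInstance : Semigroup (F E (n + 1))) with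
      mul_comm := fun a b => hC (F E (n + 1)) (F_models (n + 1)) a b }
  have hM : Models (F E (n + 1)) E := F_models (n + 1)
  refine ⟨@pow1 (F E (n + 1)) inst.toSemigroup (gen E (n + 1) 0) (N - 1), fun w hw => ?_⟩
  apply WithOne.coe_injective
  rw [PC_pow1, Nat.sub_add_cancel hN]
  obtain ⟨v, hv1, hv2⟩ := h (n + 1) w
  have e1 : ((val E (n + 1) w : F E (n + 1)) : WithOne (F E (n + 1))) =
      ∏ j, ((gen E (n + 1) j : F E (n + 1)) : WithOne (F E (n + 1))) ^ v j := by
    rw [val_eq_lift]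
    exact hv2 _ _
  have hj : ∃ j0, N ≤ v j0 := by
    by_contra hcon
    push Not at hcon
    have h3 : ∑ j, v j ≤ ∑ _j : Fin (n + 1), (N - 1) :=
      Finset.sum_le_sum fun j _ => by have := hcon j; omega
    rw [Finset.sum_const, Finset.card_univ, Fintype.card_fin, smul_eq_mul, hv1] at h3
    have h4 : (n + 1) * (N - 1) < (n + 1) * N :=
      Nat.mul_lt_mul_of_pos_left (by omega) (by omega)
    omega
  obtain ⟨j0, hj0⟩ := hj
  rw [e1]
  exact PC_aux N (h1 (F E (n + 1)) hM) (h2 (F E (n + 1)) hM) _ _ v j0 hj0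

end Pool.Agent.H72R3.II
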