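import Pool.Agent.H72R3.II.Stmts

/-!
# PERIOD: periodicity of the varieties which do not contain all commutative semigroups
-/

set_option autoImplicit false

namespace Pool.Agent.H72R3.II

/-- the multiset of letters -/
private def PERIOD_m (w : FreeSemigroup ℕ) : Multiset ℕ := ((w.head :: w.tail : List ℕ) : Multiset ℕ)

private theorem PERIOD_m_of (j : ℕ) : PERIOD_m (FreeSemigroup.of j) = {j} := rfl

private theorem PERIOD_m_mul (x y : FreeSemigroup ℕ) :
    PERIOD_m (x * y) = PERIOD_m x + PERIOD_m y := by
  show (((x.head :: (x.tail ++ y.head :: y.tail)) : List ℕ) : Multiset ℕ) = _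
  rw [PERIOD_m, PERIOD_m, Multiset.coe_add]
  rfl

private theorem PERIOD_lift {S : Type} [CommSemigroup S] (φ : ℕ → S) (w : FreeSemigroup ℕ) :
    ((FreeSemigroup.lift φ w : S) : WithOne S) =
      ((PERIOD_m w).map (fun j => ((φ j : S) : WithOne S))).prod := by
  induction w using FreeSemigroup.recOnMul with
  | ih1 j => simp [PERIOD_m_of]
  | ih2 j y h1 h2 =>
    rw [map_mul, WithOne.coe_mul, PERIOD_m_mul, Multiset.map_add, Multiset.prod_add, h1, h2]

private theorem PERIOD_prod {M : Type} [CommMonoid M] (y : M) (i : ℕ) (m : Multiset ℕ) :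
    (m.map (fun j => if j = i then y * y else y)).prod = y ^ (Multiset.card m + m.count i) := by
  induction m using Multiset.induction_on with
  | empty => simp
  | cons j m ih =>
    rw [Multiset.map_cons, Multiset.prod_cons, ih, Multiset.card_cons, Multiset.count_cons]
    by_cases h : j = i
    · subst h
      rw [if_pos rfl, if_pos rfl]
      have e : Multiset.card m + 1 + (Multiset.count j m + 1) =
        1 + 1 + (Multiset.card m + Multiset.count j m) := by omega
      rw [e, pow_add y (1 + 1), pow_add y 1 1, pow_one]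
    · rw [if_neg h, if_neg (Ne.symm h)]
      have e : Multiset.card m + 1 + (Multiset.count i m + 0) =
        1 + (Multiset.card m + Multiset.count i m) := by omega
      rw [e, pow_add y 1 (Multiset.card m + Multiset.count i m), pow_one]

private theorem PERIOD_per {M : Type} [Monoid M] (x : M) (a d : ℕ) (h : x ^ a = x ^ (a + d))
    (m k : ℕ) (hm : a ≤ m) : x ^ (m + k * d) = x ^ m := by
  induction k with
  | zero => simp
  | succ k ih =>
    have e0 : (k + 1) * d = k * d + d := by ring
    have e1 : m + (k + 1) * d = (m - a + k * d) + (a + d) := by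
      rw [e0]
      omega
    have e2 : m + k * d = (m - a + k * d) + a := by omega
    rw [e1, pow_add, ← h, ← pow_add, ← e2, ih]

private theorem PERIOD_fin (E : Set (FreeSemigroup ℕ × FreeSemigroup ℕ)) (a b : ℕ) (ha : 1 ≤ a)
    (hab : a < b)
    (hr : ∀ (S : Type) [CommSemigroup S], Models S E → ∀ x : S,
      (x : WithOne S) ^ a = (x : WithOne S) ^ b) : ∃ N : ℕ, 1 ≤ N ∧ PowIdem E N := by
  obtain ⟨d, rfl⟩ := Nat.exists_eq_add_of_lt hab
  refine ⟨a * (d + 1), Nat.mul_pos ha (Nat.succ_pos d), ?_⟩
  intro S _ hS x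
  have h1 := hr S hS x
  have h2 := PERIOD_per (x : WithOne S) a (d + 1) h1 (a * (d + 1)) a
    (Nat.le_mul_of_pos_right a (Nat.succ_pos d))
  rw [← pow_add]
  exact h2

theorem PERIOD_ok (_h : S_REP) : S_PERIOD := by
  intro E _ hE
  obtain ⟨S₀, inst, hS₀⟩ := hE
  obtain ⟨e, he, φ, hne⟩ : ∃ e ∈ E, ∃ φ : ℕ → S₀,
      FreeSemigroup.lift φ e.1 ≠ FreeSemigroup.lift φ e.2 := by
    by_contra hc
    apply hS₀
    intro e he φ
    by_contra h
    exact hc ⟨e, he, φ, h⟩
  have hm : PERIOD_m e.1 ≠ PERIOD_m e.2 := by
    intro h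
    apply hne
    apply WithOne.coe_injective
    rw [PERIOD_lift, PERIOD_lift, h]
  obtain ⟨i, hi⟩ : ∃ i, (PERIOD_m e.1).count i ≠ (PERIOD_m e.2).count i := by
    by_contra hc
    apply hm
    apply Multiset.ext.2
    intro i
    by_contra h
    exact hc ⟨i, h⟩
  have r1 : ∀ (S : Type) [CommSemigroup S], Models S E → ∀ x : S,
      (x : WithOne S) ^ (Multiset.card (PERIOD_m e.1)) =
        (x : WithOne S) ^ (Multiset.card (PERIOD_m e.2)) := by
    intro S _ hS x
    have h1 := congrArg (fun s : S => (s : WithOne S)) (hS e he (fun _ => x))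
    simp only [PERIOD_lift] at h1
    rw [Multiset.map_const', Multiset.map_const', Multiset.prod_replicate,
      Multiset.prod_replicate] at h1
    exact h1
  have r2 : ∀ (S : Type) [CommSemigroup S], Models S E → ∀ x : S,
      (x : WithOne S) ^ (Multiset.card (PERIOD_m e.1) + (PERIOD_m e.1).count i) =
        (x : WithOne S) ^ (Multiset.card (PERIOD_m e.2) + (PERIOD_m e.2).count i) := by
    intro S _ hS x
    have h1 := congrArg (fun s : S => (s : WithOne S))
      (hS e he (fun j => if j = i then x * x else x))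
    simp only [PERIOD_lift] at h1
    have e1 : (fun j : ℕ => (((if j = i then x * x else x : S)) : WithOne S)) =
        fun j : ℕ => if j = i then (x : WithOne S) * (x : WithOne S) else (x : WithOne S) := by
      funext j
      by_cases h : j = i
      · rw [if_pos h, if_pos h, WithOne.coe_mul]
      · rw [if_neg h, if_neg h]
    rw [e1, PERIOD_prod, PERIOD_prod] at h1
    exact h1
  have hc : ∀ w : FreeSemigroup ℕ, 1 ≤ Multiset.card (PERIOD_m w) := by
    intro w
    show 1 ≤ (w.head :: w.tail).length
    simp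
  by_cases hl : Multiset.card (PERIOD_m e.1) = Multiset.card (PERIOD_m e.2)
  · have hne2 : Multiset.card (PERIOD_m e.1) + (PERIOD_m e.1).count i ≠
        Multiset.card (PERIOD_m e.2) + (PERIOD_m e.2).count i := by omega
    have c1 := hc e.1
    have c2 := hc e.2
    rcases lt_or_gt_of_ne hne2 with h | h
    · exact PERIOD_fin E _ _ (by omega) h r2
    · exact PERIOD_fin E _ _ (by omega) h (fun S _ hS x => (r2 S hS x).symm)
  · rcases lt_or_gt_of_ne hl with h | h
    · exact PERIOD_fin E _ _ (hc _) h r1
    · exact PERIOD_fin E _ _ (hc _) h (fun S _ hS x => (r1 S hS x).symm)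

end Pool.Agent.H72R3.II
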