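import Pool.Agent.H72R3.II.Stmts

set_option autoImplicit false

namespace Pool.Agent.H72R3.II

theorem REP_single_prod {n : ℕ} {M : Type} [CommMonoid M] (a : Fin n → M) (i : Fin n) :
    ∏ j, a j ^ ((Pi.single i 1 : Fin n → ℕ) j) = a i := by
  rw [Finset.prod_eq_single i]
  · simp
  · intro j _ hj
    simp [Pi.single_eq_of_ne hj]
  · intro h
    exact absurd (Finset.mem_univ i) h

theorem REP_single_sum {n : ℕ} (i : Fin n) : ∑ j, ((Pi.single i 1 : Fin n → ℕ) j) = 1 := by
  rw [Finset.sum_eq_single i]
  · simp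
  · intro j _ hj
    simp [Pi.single_eq_of_ne hj]
  · intro h
    exact absurd (Finset.mem_univ i) h

theorem REP_add_prod {n : ℕ} {M : Type} [CommMonoid M] (a : Fin n → M) (v v' : Fin n → ℕ) :
    ∏ j, a j ^ ((v + v') j) = (∏ j, a j ^ v j) * ∏ j, a j ^ v' j := by
  rw [← Finset.prod_mul_distrib]
  refine Finset.prod_congr rfl (fun j _ => ?_)
  rw [Pi.add_apply, pow_add]

theorem REP_ok : S_REP := by
  intro n w
  induction w using FreeSemigroup.recOnMul with
  | ih1 i =>
    refine ⟨Pi.single i 1, ?_, ?_⟩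
    · rw [REP_single_sum, FreeSemigroup.length_of]
    · intro S _ f
      rw [REP_single_prod, FreeSemigroup.lift_of]
  | ih2 i w _ ih =>
    obtain ⟨v, hv, hvp⟩ := ih
    refine ⟨Pi.single i 1 + v, ?_, ?_⟩
    · have : ∑ j, ((Pi.single i 1 : Fin n → ℕ) + v) j = ∑ j, ((Pi.single i 1 : Fin n → ℕ) j) + ∑ j, v j := by
        rw [← Finset.sum_add_distrib]
        rfl
      rw [this, REP_single_sum, hv, FreeSemigroup.length_mul, FreeSemigroup.length_of]
    · intro S _ f
      rw [REP_add_prod, REP_single_prod, ← hvp S f, map_mul, FreeSemigroup.lift_of,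
        WithOne.coe_mul]

theorem REAL_ok : S_REAL := by
  intro n
  have key : ∀ s : ℕ, ∀ v : Fin n → ℕ, ∑ j, v j = s → v ≠ 0 → ∃ w : FreeSemigroup (Fin n),
      w.length = ∑ j, v j ∧ ∀ (S : Type) [CommSemigroup S] (f : Fin n → S),
      ((FreeSemigroup.lift f w : S) : WithOne S) = ∏ j, ((f j : S) : WithOne S) ^ v j := by
    intro s
    induction s using Nat.strong_induction_on with
    | _ s ih =>
      intro v hs hv
      obtain ⟨i, hi⟩ : ∃ i, v i ≠ 0 := by
        by_contra hc
        push Not at hc
        exact hv (funext hc)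
      obtain ⟨v', hv'⟩ : ∃ v' : Fin n → ℕ, v = Pi.single i 1 + v' := by
        refine ⟨v - Pi.single i 1, ?_⟩
        funext j
        rw [Pi.add_apply, Pi.sub_apply]
        by_cases hj : j = i
        · subst hj
          rw [Pi.single_eq_same]
          omega
        · rw [Pi.single_eq_of_ne hj]
          omega
      have hsum : ∑ j, v j = 1 + ∑ j, v' j := by
        have : ∑ j, v j = ∑ j, ((Pi.single i 1 : Fin n → ℕ) j) + ∑ j, v' j := by
          rw [← Finset.sum_add_distrib, hv']
          rfl
        rw [this, REP_single_sum]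
      by_cases h0 : v' = 0
      · refine ⟨FreeSemigroup.of i, ?_, ?_⟩
        · rw [hsum, h0, FreeSemigroup.length_of]
          simp
        · intro S _ f
          rw [hv', h0, add_zero, REP_single_prod, FreeSemigroup.lift_of]
      · obtain ⟨w, hw, hwp⟩ := ih (∑ j, v' j) (by omega) v' rfl h0
        refine ⟨FreeSemigroup.of i * w, ?_, ?_⟩
        · rw [hsum, FreeSemigroup.length_mul, FreeSemigroup.length_of, hw]
        · intro S _ f
          rw [hv', REP_add_prod, REP_single_prod, ← hwp S f, map_mul, FreeSemigroup.lift_of,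
            WithOne.coe_mul]
  intro v hv
  exact key _ v rfl hv

end Pool.Agent.H72R3.II
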