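import Pool.Agent.H72R3.II.Defs

/-!
# Separating the free semigroups of a variety by identical inclusions: statements of the steps
-/

set_option autoImplicit false

namespace Pool.Agent.H72R3.II

/-- every element of `F_n` is isolated by some homomorphism to `F_m` -/
def Iso (E : Set (FreeSemigroup ℕ × FreeSemigroup ℕ)) (n m : ℕ) : Prop :=
  ∀ g : F E n, ∃ T : F E n →ₙ* F E m, ∀ h, T h = T g → h = g

/-- the letter `i` occurs in the word `w` -/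
def Occ {n : ℕ} (i : Fin n) (w : FreeSemigroup (Fin n)) : Prop := i = w.head ∨ i ∈ w.tail

/-- SUB -/
def S_SUB : Prop := ∀ (E : Set (FreeSemigroup ℕ × FreeSemigroup ℕ)) (m n : ℕ), 1 ≤ m → m ≤ n →
  ∀ (u : FreeSemigroup ℕ) (W : Set (FreeSemigroup ℕ)), SatIncl (F E n) u W → SatIncl (F E m) u W

/-- CRIT -/
def S_CRIT : Prop := ∀ (E : Set (FreeSemigroup ℕ × FreeSemigroup ℕ)) (m n : ℕ), 1 ≤ m → m ≤ n →
  (InclEquiv (F E m) (F E n) ↔ Iso E n m)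

/-- LET -/
def S_LET : Prop := ∀ (E : Set (FreeSemigroup ℕ × FreeSemigroup ℕ)) (n : ℕ), 1 ≤ n →
  ∀ (z : F E (n + 1)) (δ : ℕ),
  (∀ w : FreeSemigroup (Fin (n + 1)), δ < w.length → val E (n + 1) w = z) →
  ∀ w : FreeSemigroup (Fin (n + 1)), w.length = δ →
  ∀ T : F E (n + 1) →ₙ* F E n, T (val E (n + 1) w) ≠ T z →
  ∀ i, Occ i w → ∃ j : Fin n, T (gen E (n + 1) i) = gen E n j

/-- MERGE -/
def S_MERGE : Prop := ∀ (E : Set (FreeSemigroup ℕ × FreeSemigroup ℕ)) (n L : ℕ)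
  (z : F E (n + 1)), (∀ w : FreeSemigroup (Fin (n + 1)), L ≤ w.length → val E (n + 1) w = z) →
  ∀ i j : Fin (n + 1), i ≠ j →
  (∀ w, val E (n + 1) (FreeSemigroup.map (Function.update id j i) w) = z →
    val E (n + 1) w = z) →
  ∀ w, val E (n + 1) (FreeSemigroup.map (fun _ => (0 : Fin (n + 1))) w) = z →
    val E (n + 1) w = z

/-- NA -/
def S_NA : Prop := ∀ (E : Set (FreeSemigroup ℕ × FreeSemigroup ℕ)) (n L : ℕ), 1 ≤ n →
  ∀ z : F E (n + 1), (∀ w : FreeSemigroup (Fin (n + 1)), L ≤ w.length → val E (n + 1) w = z) →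
  (∃ w : FreeSemigroup (Fin (n + 1)), val E (n + 1) w ≠ z) →
  (∃ T : F E (n + 1) →ₙ* F E n, ∀ h, T h = T z → h = z) →
  ∃ δ : ℕ, 1 ≤ δ ∧ ∀ w : FreeSemigroup (Fin (n + 1)), val E (n + 1) w = z ↔ δ < w.length

/-- NE -/
def S_NE : Prop := ∀ (E : Set (FreeSemigroup ℕ × FreeSemigroup ℕ)) (n δ : ℕ), 1 ≤ n → 1 ≤ δ →
  ∀ z : F E (n + 1), (∀ w : FreeSemigroup (Fin (n + 1)), val E (n + 1) w = z ↔ δ < w.length) →
  Iso E (n + 1) n → δ ≤ n

/-- NF -/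
def S_NF : Prop := ∀ (E : Set (FreeSemigroup ℕ × FreeSemigroup ℕ)) (n δ : ℕ), 1 ≤ n → 1 ≤ δ →
  ∀ z : F E (n + 1), (∀ w : FreeSemigroup (Fin (n + 1)), val E (n + 1) w = z ↔ δ < w.length) →
  δ ≤ n → Exceptional E

/-- N0 -/
def S_N0 : Prop := ∀ (E : Set (FreeSemigroup ℕ × FreeSemigroup ℕ)) (n : ℕ), 1 ≤ n →
  ∀ z : F E (n + 1), (∀ w : FreeSemigroup (Fin (n + 1)), val E (n + 1) w = z) → Nilp E 1

/-- NIL -/
def S_NIL : Prop := ∀ (E : Set (FreeSemigroup ℕ × FreeSemigroup ℕ)) (n L : ℕ), 1 ≤ n →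
  ∀ z : F E (n + 1), (∀ w : FreeSemigroup (Fin (n + 1)), L ≤ w.length → val E (n + 1) w = z) →
  Iso E (n + 1) n → Exceptional E

/-- REP: values of words in commutative semigroups -/
def S_REP : Prop := ∀ (n : ℕ) (w : FreeSemigroup (Fin n)), ∃ v : Fin n → ℕ,
  ∑ j, v j = w.length ∧ ∀ (S : Type) [CommSemigroup S] (f : Fin n → S),
    ((FreeSemigroup.lift f w : S) : WithOne S) = ∏ j, ((f j : S) : WithOne S) ^ v j

/-- REAL -/
def S_REAL : Prop := ∀ (n : ℕ) (v : Fin n → ℕ), v ≠ 0 → ∃ w : FreeSemigroup (Fin n),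
  w.length = ∑ j, v j ∧ ∀ (S : Type) [CommSemigroup S] (f : Fin n → S),
    ((FreeSemigroup.lift f w : S) : WithOne S) = ∏ j, ((f j : S) : WithOne S) ^ v j

/-- DEP: integral linear dependence -/
def S_DEP : Prop := ∀ (n : ℕ) (v : Fin (n + 1) → Fin n → ℕ), (∀ i, v i ≠ 0) →
  ∃ c lam : Fin (n + 1) → ℤ, (∀ j, ∑ i, c i * (v i j : ℤ) = 0) ∧ ∑ i, lam i * c i = 1 ∧
    (∃ i, 0 < c i) ∧ ∃ i, c i < 0

/-- the `N`-th powers of elements of semigroups of the variety are idempotent -/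
def PowIdem (E : Set (FreeSemigroup ℕ × FreeSemigroup ℕ)) (N : ℕ) : Prop :=
  ∀ (S : Type) [CommSemigroup S], Models S E → ∀ x : S,
    (x : WithOne S) ^ N * (x : WithOne S) ^ N = (x : WithOne S) ^ N

/-- the vectors `v i` control the relations between high powers in the variety -/
def Control (E : Set (FreeSemigroup ℕ × FreeSemigroup ℕ)) (n N : ℕ) (v : Fin (n + 1) → Fin n → ℕ) :
    Prop :=
  (∀ i, v i ≠ 0) ∧ ∀ (b : Fin (n + 1) → ℕ) (B : ℕ), 1 ≤ B →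
    (∀ j, ∑ i, b i * v i j = N * B * ∑ i, v i j) →
    ∀ (S : Type) [CommSemigroup S], Models S E → ∀ x : Fin (n + 1) → S,
      ∏ i, ((x i : S) : WithOne S) ^ b i = ∏ i, ((x i : S) : WithOne S) ^ N

/-- KEY -/
def S_KEY : Prop := ∀ (E : Set (FreeSemigroup ℕ × FreeSemigroup ℕ)) (n N : ℕ), CommV E →
  1 ≤ n → 1 ≤ N → PowIdem E N → Iso E (n + 1) n → ∃ v, Control E n N v

/-- PA: all `N`-th powers are equal -/
def S_PA : Prop := ∀ (E : Set (FreeSemigroup ℕ × FreeSemigroup ℕ)) (n N : ℕ)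
  (v : Fin (n + 1) → Fin n → ℕ), 1 ≤ n → 1 ≤ N → PowIdem E N → Control E n N v →
  ∀ (S : Type) [CommSemigroup S], Models S E → ∀ x y : S,
    (x : WithOne S) ^ N = (y : WithOne S) ^ N

/-- PB: no groups -/
def S_PB : Prop := ∀ (E : Set (FreeSemigroup ℕ × FreeSemigroup ℕ)) (n N : ℕ)
  (v : Fin (n + 1) → Fin n → ℕ), 1 ≤ n → 1 ≤ N → PowIdem E N → Control E n N v →
  ∀ (S : Type) [CommSemigroup S], Models S E → ∀ x : S,
    (x : WithOne S) ^ N * (x : WithOne S) = (x : WithOne S) ^ N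

/-- PC: long words are equal -/
def S_PC : Prop := ∀ (E : Set (FreeSemigroup ℕ × FreeSemigroup ℕ)) (n N : ℕ), CommV E → 1 ≤ N →
  (∀ (S : Type) [CommSemigroup S], Models S E → ∀ x y : S,
    (x : WithOne S) ^ N = (y : WithOne S) ^ N) →
  (∀ (S : Type) [CommSemigroup S], Models S E → ∀ x : S,
    (x : WithOne S) ^ N * (x : WithOne S) = (x : WithOne S) ^ N) →
  ∃ z : F E (n + 1), ∀ w : FreeSemigroup (Fin (n + 1)), (n + 1) * N ≤ w.length →
    val E (n + 1) w = z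

/-- PERIOD -/
def S_PERIOD : Prop := ∀ E : Set (FreeSemigroup ℕ × FreeSemigroup ℕ), CommV E → NotAllComm E →
  ∃ N : ℕ, 1 ≤ N ∧ PowIdem E N

/-- COM: the variety of all commutative semigroups -/
def S_COM : Prop := ∀ E : Set (FreeSemigroup ℕ × FreeSemigroup ℕ), CommV E → ¬ NotAllComm E →
  Iso E 2 1

/-- EXA: the trivial variety -/
def S_EXA : Prop := ∀ E : Set (FreeSemigroup ℕ × FreeSemigroup ℕ), Nilp E 1 → Iso E 2 1

/-- EXB: the exceptional nilpotent varieties -/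
def S_EXB : Prop := ∀ (E : Set (FreeSemigroup ℕ × FreeSemigroup ℕ)) (c : ℕ), Nilp E (c + 2) →
  (∃ (S : Type) (_ : Semigroup S), Models S E ∧ ∃ a : S, pow1 a c ≠ pow1 a (c + 1)) →
  Iso E (c + 3) (c + 2)

/-- FIN -/
def S_FIN : Prop :=
  (∀ (E : Set (FreeSemigroup ℕ × FreeSemigroup ℕ)) (m n : ℕ), 1 ≤ m → m ≤ n →
    (InclEquiv (F E m) (F E n) ↔
      ∀ g : F E n, ∃ T : F E n →ₙ* F E m, ∀ h, T h = T g → h = g)) ∧
  (∀ E : Set (FreeSemigroup ℕ × FreeSemigroup ℕ), CommV E →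
    (Separated E ↔ NotAllComm E ∧ ¬ Exceptional E)) ∧
  (∀ (E : Set (FreeSemigroup ℕ × FreeSemigroup ℕ)) (c : ℕ), Nilp E c →
    (Separated E ↔ ¬ Exceptional E))

end Pool.Agent.H72R3.II
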