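import Pool.Agent.H72R3.II.Stmts

/-!
# Separating the free semigroups of a variety of bands by identical inclusions: statements
-/

set_option autoImplicit false

namespace Pool.Agent.H72R3.II

/-- The variety consists of bands (idempotent semigroups). -/
def BandV (E : Set (FreeSemigroup ℕ × FreeSemigroup ℕ)) : Prop :=
  ∀ (S : Type) [Semigroup S], Models S E → ∀ x : S, x * x = x

/-- The variety does not satisfy `x y x = x`. -/
def NotRect (E : Set (FreeSemigroup ℕ × FreeSemigroup ℕ)) : Prop :=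
  ∃ (S : Type) (_ : Semigroup S), Models S E ∧ ∃ x y : S, x * y * x ≠ x

/-- BW: words in a band -/
def S_BW : Prop := ∀ (S : Type) [Semigroup S], (∀ x : S, x * x = x) → ∀ (n : ℕ) (f : Fin n → S)
  (p t : FreeSemigroup (Fin n)), (∀ i, Occ i t → Occ i p) →
  FreeSemigroup.lift f p * FreeSemigroup.lift f t * FreeSemigroup.lift f p =
    FreeSemigroup.lift f p

/-- BC: the content of an element -/
def S_BC : Prop := ∀ E : Set (FreeSemigroup ℕ × FreeSemigroup ℕ), BandV E → NotRect E →
  ∀ (n : ℕ) (w w' : FreeSemigroup (Fin n)), val E n w = val E n w' → ∀ i, Occ i w → Occ i w'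

/-- BP: an element that is not isolated -/
def S_BP : Prop := ∀ E : Set (FreeSemigroup ℕ × FreeSemigroup ℕ), BandV E → NotRect E →
  ∀ n : ℕ, 1 ≤ n → ∃ p : FreeSemigroup (Fin (n + 1)), (∀ i, Occ i p) ∧
    ∀ T : F E (n + 1) →ₙ* F E n, ∃ h, h ≠ val E (n + 1) p ∧ T h = T (val E (n + 1) p)

/-- BR: rectangular bands -/
def S_BR : Prop := ∀ E : Set (FreeSemigroup ℕ × FreeSemigroup ℕ), BandV E → ¬ NotRect E →
  Iso E 4 3

/-- BFIN -/
def S_BFIN : Prop := ∀ E : Set (FreeSemigroup ℕ × FreeSemigroup ℕ), BandV E →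
  (Separated E ↔ NotRect E)

end Pool.Agent.H72R3.II
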